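import Pool.Agent.PHK.Dsp
import Pool.Agent.PLX.NUSea.H0.DatC

/-!
# The data of a configuration of the six kinds and of spectators, general sea

As `PLX/NUSea/H0/DatC` for the kinds `Kd6`: `datO6 I P O : Dat`, `I : Inp` the landed inputs.  No slack:
`E = I.B`.  Strip `|Im z| ≤ l / 100`, curves `|η| ≤ ε ≤ 1 / 400`, offsets `1 / 64` away from the integers.
-/

set_option autoImplicit false
set_option linter.unusedSectionVars false

open MeasureTheory Set Filter Topology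

namespace NUSea.PLX.H0

open NUMF NUKer NUAct NUDispP NUDispV NUDispW PHK
open NUO (Xo sp ht)
open NU42 (norm_iD Crv iD_cont)

noncomputable section

variable [Sea]

/-- all analytic potentials -/
def FA6 (I : Inp) (P : Par6) {r : ℕ} (O : Fin r → Xo) (a : Bool) (z : ℂ) : ℂ := FO6 P O a z + I.A a z

/-- the quadratic part of the one body potential -/
def Qr6 (I : Inp) (P : Par6) {r : ℕ} (O : Fin r → Xo) (a : Bool) (t : ℝ) : ℝ :=
  (∑ d, (gas I.s I.η I.η1 (FA6 I P O)).KB a d t).re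

/-- the remainder -/
def phiO6 (I : Inp) (P : Par6) {r : ℕ} (O : Fin r → Xo) (a : Bool) (t : ℝ) : ℝ :=
  Qr6 I P O a t + dFB6 P O (I.η a) a t + wO I a t

/-- **the data of a configuration** -/
def datO6 (I : Inp) (P : Par6) {r : ℕ} (O : Fin r → Xo) : Dat where
  s := I.s
  ζ a := NUAct.zt (iD (I.η a))
  ζ' a := NUAct.zd (iD (I.η1 a))
  F := FA6 I P O
  E a t := I.B a t
  τ t := tauC6 P O t + I.τD t
  μ a t := muC6 P O a t + I.ν a t
  φ := phiO6 I P O
  φ' a := deriv (phiO6 I P O a)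

variable {r : ℕ} (I : Inp) (P : Par6) (O : Fin r → Xo)

lemma datO6_D (a : Bool) : (datO6 I P O).D a = iD (I.η a) := by
  funext t
  unfold Dat.D
  show NUAct.zt (iD (I.η a)) t - t = iD (I.η a) t
  unfold NUAct.zt
  ring

lemma datO6_D1 (a : Bool) : (datO6 I P O).D1 a = iD (I.η1 a) := by
  funext t
  unfold Dat.D1
  show NUAct.zd (iD (I.η1 a)) t - 1 = iD (I.η1 a) t
  unfold NUAct.zd
  ring

/-! ### hypotheses -/

/-- hypotheses of the instance -/
structure IOk6 (dl ε M b : ℝ) (e : ℝ → ℝ) (I : Inp) (P : Par6) : Prop where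
  s0 : ∀ a, 0 ≤ I.s a
  b0 : 0 ≤ b
  cur : ∀ a, Cur (I.s a) ε M b e (I.η a)
  der : ∀ a t, HasDerivAt (I.η a) (I.η1 a t) t
  com : Com M I.s e I.η I.η1
  ε1 : ε ≤ 1 / 400
  ok : Ok6 P
  pg : PG6 (1 / 64) P
  d1 : ε / NUMF.l ≤ dl
  d2 : dl ≤ 1 / 128
  Ae : ∀ a, Ext (NUMF.l / 100) (I.A a)
  Bc : ∀ a, Continuous (I.B a)
  Bb : ∀ a, ∃ C, ∀ t, |I.B a t| ≤ C
  νc : ∀ a, Continuous (I.ν a)
  νi : ∀ a, Integrable (I.ν a)
  νb : ∀ a, ∃ C, ∀ t, |I.ν a t| ≤ C
  τi : Integrable I.τD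
  τ1 : Integrable fun x => I.τD x * x
  wc : ∀ a, ContDiff ℝ 1 (wO I a)
  wb : ∀ a, ∃ C, ∀ t, |wO I a t| ≤ C

variable {I P O} {dl ε M b : ℝ} {e : ℝ → ℝ}

namespace IOk6

variable (h : IOk6 dl ε M b e I P)

include h

lemma εl : ε < NUMF.l / 100 := by
  refine h.ε1.trans_lt ?_
  unfold NUMF.l
  have := Real.pi_gt_d2
  linarith

lemma eps0 : 0 ≤ ε := (h.cur true).ε0

lemma M0 : 0 ≤ M := (h.cur true).M0 (h.s0 true)

lemma dl0 : 0 ≤ dl := by
  have := h.eps0
  have := h.d1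
  have hl := NUMF.l_pos
  have : 0 ≤ ε / NUMF.l := by positivity
  linarith

lemma eta (a : Bool) (t : ℝ) : |I.η a t| ≤ ε :=
  (norm_iD (I.η a) t).symm.le.trans (((h.cur a).oc.le t).trans ((h.cur a).le t))

lemma eta1 (a : Bool) (t : ℝ) : |I.η1 a t| ≤ ε :=
  (norm_iD (I.η1 a) t).symm.le.trans ((((h.cur a).oc1 (h.der a)).le t).trans ((h.cur a).le t))

lemma eta1_cont (a : Bool) : Continuous (I.η1 a) := by
  have h1 := Complex.continuous_im.comp ((h.cur a).oc1 (h.der a)).cont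
  refine h1.congr fun t => ?_
  simp [iD]

lemma crv (a : Bool) : Crv ε b (I.η a) (I.η1 a) where
  hd := h.der a
  hc := h.eta1_cont a
  h0 := h.eta a
  h1 := h.eta1 a
  hz t ht := by
    have h1 := (norm_iD (I.η a) t).symm.le.trans ((h.cur a).oc.le t)
    rw [(h.cur a).supp t ht] at h1
    exact abs_nonpos_iff.1 h1

lemma ext (a : Bool) : Ext (NUMF.l / 100) (FA6 I P O a) := by
  have hl := NUMF.l_pos
  have h1 := ext_FO6 (P := P) O (b := NUMF.l / 80) (by positivity) (by linarith) h.pg a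
    (b' := NUMF.l / 100) (by linarith)
  obtain ⟨A1, hA1⟩ := h1.bd
  obtain ⟨A2, hA2⟩ := (h.Ae a).bd
  refine ⟨fun z hz => (h1.diff z hz).add ((h.Ae a).diff z hz), A1 + A2, fun z hz => ?_⟩
  rw [add_mul]
  exact (norm_add_le _ _).trans (add_le_add (hA1 z hz) (hA2 z hz))

lemma path (a : Bool) :
    Path (NUMF.l / 100) (1 / 2) 2 (NUAct.zt (iD (I.η a))) (NUAct.zd (iD (I.η1 a))) :=
  path_of_cur_w (h.s0 a) (h.ε1.trans (by norm_num)) h.εl.le (h.cur a) (h.der a)

lemma eta_lt (a : Bool) (t : ℝ) : |I.η a t| < 1 / 64 * NUMF.l := by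
  have hl := NUMF.l_pos
  have := h.eta a t
  have := h.εl
  linarith

/-- the potentials on the path -/
lemma FO_re (a : Bool) (t : ℝ) :
    (FO6 P O a (zt (iD (I.η a)) t)).re = dFB6 P O (I.η a) a t + linC6 P O a t :=
  FO6_re O h.pg a (h.eta_lt a t)

/-- the equation -/
lemma lin_eq (a : Bool) (t : ℝ) : (datO6 I P O).gas.lin a t - Dat.sg a * (datO6 I P O).Gt t +
    (datO6 I P O).E a t = (datO6 I P O).Vm a t + (datO6 I P O).φ a t := by
  have h1 := cfg_eq6 h.ok O a t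
  have h2 := h.FO_re (O := O) a t
  have e1 : (datO6 I P O).gas.lin a t = Qr6 I P O a t + (FA6 I P O a (NUAct.zt (iD (I.η a)) t)).re := by
    rw [Gas.lin, Complex.add_re]
    rfl
  have e2 : (datO6 I P O).Gt t = NUC43.lgp (tauC6 P O) t + NUC43.lgp I.τD t := by
    have i1 := NUC43.lg_in (dn_tauC6 h.ok O) t
    have i2 := tau_logg_int h.τi h.τ1 t
    unfold Dat.Gt NUC43.lgp
    rw [← integral_add i1 i2]
    refine integral_congr_ae (ae_of_all _ fun u => ?_)
    show (tauC6 P O u + I.τD u) * Real.log (g (t - u)) = _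
    ring
  have e3 : (datO6 I P O).E a t = I.B a t := rfl
  have e4 : Dat.sg a = NUC43.sg a := rfl
  have e5 : (datO6 I P O).Vm a t = (∫ u, muC6 P O a u * V (t - u)) + Vn I a t := by
    obtain ⟨C, hC⟩ := h.νb a
    have i1 := NUC43.V_in (dn_muC6 h.ok O a) t
    have i2 : Integrable fun u => I.ν a u * V (t - u) := by
      have h1 : Integrable fun u => V (t - u) := V_integral.1.comp_sub_left t
      exact (h1.mul_bdd (c := C) (h.νc a).aestronglyMeasurable (ae_of_all _ hC)).congr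
        (ae_of_all _ fun u => mul_comm _ _)
    unfold Dat.Vm Vn
    rw [← integral_add i1 i2]
    refine integral_congr_ae (ae_of_all _ fun u => ?_)
    show (muC6 P O a u + I.ν a u) * V (t - u) = _
    ring
  have e6 : (datO6 I P O).φ a t = Qr6 I P O a t + dFB6 P O (I.η a) a t +
      ((I.A a (NUAct.zt (iD (I.η a)) t)).re +
      I.B a t - Dat.sg a * NUC43.lgp I.τD t - Vn I a t) := rfl
  rw [e1, e2, e3, e4, e5, e6, FA6, Complex.add_re, h2, e4]
  linarith

/-- **the equation of the data** -/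
theorem fld {p n : ℕ} (hpn : ((p : ℝ) - I.s true) - ((n : ℝ) - I.s false) =
    -(∑ i, NUC43.sg (sp (O i)) * kq6 (k6 (O i))) + ∫ x, I.τD x) :
    Fld (datO6 I P O) p n := by
  have hd := dn_tauC6 h.ok O
  refine ⟨hd.int.add h.τi, ?_, ?_, h.lin_eq⟩
  · have h1 := hd.wint
    have h2 : Integrable fun x => |x| * tauC6 P O x := by
      refine (h1.sub hd.int).congr (ae_of_all _ fun x => ?_)
      simp only [Pi.sub_apply]
      ring
    have hc := hd.cont
    have h3 : Integrable fun x => tauC6 P O x * x := by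
      refine h2.mono (Continuous.aestronglyMeasurable (hc.mul continuous_id)) (ae_of_all _ fun x => ?_)
      rw [norm_mul, norm_mul, Real.norm_eq_abs |x|, abs_abs, Real.norm_eq_abs x, mul_comm]
    refine (h3.add h.τ1).congr (ae_of_all _ fun x => ?_)
    show tauC6 P O x * x + I.τD x * x = (tauC6 P O x + I.τD x) * x
    ring
  · have h4 : ∫ x, (datO6 I P O).τ x = (∫ x, tauC6 P O x) + ∫ x, I.τD x :=
      integral_add hd.int h.τi
    have h5 : ((p : ℝ) - (datO6 I P O).s true) - ((n : ℝ) - (datO6 I P O).s false) =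
      -(∑ i, NUC43.sg (sp (O i)) * kq6 (k6 (O i))) + ∫ x, I.τD x := hpn
    rw [h4, h5, tauC_int6 h.ok O]

lemma pgd : PG6 (1 / 128 + dl) P := by
  have h0 := h.d2
  have h1 := h.dl0
  have w : ∀ {j : ℝ}, NUO.Off (1 / 64) j → NUO.Off (1 / 128 + dl) j := fun hj =>
    NUDispP.Off.weaken hj (by linarith)
  exact ⟨by linarith, by linarith, w h.pg.oL, w h.pg.oe, w h.pg.o1, w h.pg.o2⟩

/-- **the displacement fields of the objects**: `C^1`, with decaying derivative -/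
theorem exists_dFB (a : Bool) : ∃ F' : ℝ → ℝ, (∀ t, HasDerivAt (dFB6 P O (I.η a) a) (F' t) t) ∧
    Continuous F' ∧
    (∀ t, |dFB6 P O (I.η a) a t| ≤ Bd6 (1 / 128) dl * bmaj Finset.univ (fun i => ht (O i)) 2 t) ∧
    ∀ t, |F' t| ≤ Bd6 (1 / 128) dl * bmaj Finset.univ (fun i => ht (O i)) 2 t :=
  exists_dFB6 O (by norm_num) h.pgd (h.eta a) (h.eta1 a) (h.der a) (h.eta1_cont a) h.d1 a

/-- **the remainder is `C^1` and bounded** -/
theorem phi_C1 (hQ : ∀ a, ContDiff ℝ 1 (Qr6 I P O a)) (a : Bool) : ContDiff ℝ 1 (phiO6 I P O a) := by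
  obtain ⟨F', h1, h2, h3, h4⟩ := h.exists_dFB (O := O) a
  have h5 : ContDiff ℝ 1 (dFB6 P O (I.η a) a) := by
    rw [contDiff_one_iff_deriv]
    refine ⟨fun t => (h1 t).differentiableAt, ?_⟩
    rw [show deriv (dFB6 P O (I.η a) a) = F' from funext fun t => (h1 t).deriv]
    exact h2
  exact ((hQ a).add h5).add (h.wc a)

lemma Bd0 : 0 ≤ Bd6 (1 / 128) dl := by
  have := h.dl0
  unfold Bd6
  have h8 : 0 < Real.sin (1 / 128 * NUMF.l) := by
    refine Real.sin_pos_of_pos_of_lt_pi (by have := NUMF.l_pos; positivity) ?_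
    unfold NUMF.l
    linarith [Real.pi_pos]
  positivity

theorem phi_bdd (a : Bool) : ∃ C, ∀ t, |phiO6 I P O a t| ≤ C := by
  obtain ⟨K, hK, HQ⟩ := exists_phiQ''
  obtain ⟨Q', q0, q1, q2, q3⟩ := HQ h.s0 h.b0 (h.ε1.trans (by norm_num)) h.cur h.der h.com (FA6 I P O)
  obtain ⟨F', h1, h2, h3, h4⟩ := h.exists_dFB (O := O) a
  obtain ⟨C1, hC1⟩ := h.wb a
  have hM := h.M0
  have hε := h.eps0
  have hdl := h.Bd0
  refine ⟨K * (M * ε) * Wm + Bd6 (1 / 128) dl * r + C1, fun t => ?_⟩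
  have b1 : |Qr6 I P O a t| ≤ K * (M * ε) * Wm :=
    (q2 a t).trans (mul_le_mul_of_nonneg_left (Wb_le b t) (by positivity))
  have b2 : bmaj Finset.univ (fun i => ht (O i)) 2 t ≤ r := by
    unfold bmaj
    refine (Finset.sum_le_card_nsmul _ _ 1 fun i _ => ?_).trans (by simp)
    rw [Real.exp_le_one_iff]
    have := abs_nonneg (t - ht (O i))
    linarith
  have b3 := h3 t
  have b4 : |dFB6 P O (I.η a) a t| ≤ Bd6 (1 / 128) dl * r := by
    have := mul_le_mul_of_nonneg_left b2 hdl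
    linarith
  have b5 := hC1 t
  unfold phiO6
  rw [abs_le] at b1 b4 b5 ⊢
  constructor <;> linarith [b1.1, b1.2, b4.1, b4.2, b5.1, b5.2]

/-- **regularity of the data** -/
theorem reg (hQ : ∀ a, ContDiff ℝ 1 (Qr6 I P O a)) : Reg (datO6 I P O) where
  μi a := (dn_muC6 h.ok O a).int.add (h.νi a)
  μc a := (dn_muC6 h.ok O a).cont.add (h.νc a)
  μb a := by
    obtain ⟨C1, h0, h1⟩ := (dn_muC6 h.ok O a).bdd
    obtain ⟨C2, h2⟩ := h.νb a
    exact ⟨C1 + C2, fun t => (abs_add_le _ _).trans (add_le_add (h1 t) (h2 t))⟩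
  φc a := (h.phi_C1 hQ a).continuous
  φb a := h.phi_bdd a
  Ec a := h.Bc a
  Eb a := h.Bb a

end IOk6

/-- **the geometry of the data** -/
theorem exists_geo6 : ∃ K : ℝ, 20 ≤ K ∧ ∀ {r : ℕ} {I : Inp} {P : Par6} {O : Fin r → Xo}
    {dl ε M b : ℝ} {e : ℝ → ℝ}, IOk6 dl ε M b e I P → K * ε ≤ 1 → Geo (datO6 I P O) (K * ε) := by
  obtain ⟨K, hK, H⟩ := NU42.exists_line
  refine ⟨K, hK, fun {r I P O dl ε M b e} h hs => ?_⟩
  obtain ⟨h1, h2, h3, h4, h5, h6⟩ := H ε b (I.η true) (I.η1 true) (I.η false) (I.η1 false)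
    (h.crv true) (h.crv false) hs
  have hl := NUMF.l_pos
  refine ⟨h.s0, ⟨NUMF.l / 100, 1 / 2, 2, by linarith, fun a => h.path a, fun a => h.ext a⟩, ?_, ?_⟩
  · rw [datO6_D, datO6_D1, datO6_D, datO6_D1]
    exact h1
  · intro a d
    have h7 := h3 a d
    unfold Dat.κ
    rw [datO6_D, datO6_D1, datO6_D]
    cases a <;> cases d <;> exact h7

/-- charges -/
lemma sum_kq6 : ∑ i, NUC43.sg (sp (O i)) * kq6 (k6 (O i)) =
    (chgO6 O true : ℝ) - chgO6 O false := by
  have h1 : ∀ x : Xo, NUC43.sg (sp x) * kq6 (k6 x) = (chg6 true x : ℝ) - chg6 false x := by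
    intro x
    unfold chg6
    generalize k6 x = K
    generalize sp x = c
    cases K <;> cases c <;> simp [NUC43.sg, kq6] <;> norm_num
  unfold chgO6
  push_cast
  rw [← Finset.sum_sub_distrib]
  exact Finset.sum_congr rfl fun i _ => h1 (O i)

/-- the equation of the data, `nX`, `nY` quanta in all -/
theorem IOk6.fld' (h : IOk6 dl ε M b e I P) {nX nY : ℕ} (h1 : chgO6 O true ≤ nX)
    (h2 : chgO6 O false ≤ nY) (hn : ∫ x, I.τD x = ((nX : ℝ) - I.s true) - ((nY : ℝ) - I.s false)) :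
    Fld (datO6 I P O) (nA6 nX O true) (nA6 nY O false) := by
  refine h.fld ?_
  have e1 : ((nA6 nX O true : ℕ) : ℝ) = nX - chgO6 O true := by
    have : ((nA6 nX O true : ℕ) : ℤ) = nX - chgO6 O true := by
      unfold nA6
      exact Int.toNat_of_nonneg (by linarith)
    exact_mod_cast this
  have e2 : ((nA6 nY O false : ℕ) : ℝ) = nY - chgO6 O false := by
    have : ((nA6 nY O false : ℕ) : ℤ) = nY - chgO6 O false := by
      unfold nA6
      exact Int.toNat_of_nonneg (by linarith)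
    exact_mod_cast this
  rw [sum_kq6, e1, e2, hn]
  ring

end

end NUSea.PLX.H0
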