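import Pool.Agent.PHK.H0.DatC
import Pool.Agent.PLX.NUSea.H0.H0fin
import Pool.Agent.PLX.NUS4C.SharpD
import Pool.Agent.NUO.GasG
import Pool.Agent.NUH0.Inst

/-!
# The gas on the curve in the presence of objects (six kinds) and of spectators, general sea

`DatC6`: hypotheses on the data `datO6 I P O` (rows `I.s`, curve `I.η`, extra analytic potentials
`I.A`, real potentials `I.B`, densities `I.ν`, splitting `I.τD`, objects `O`), on the places `g` of the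
extra densities and on the one body factors `aX * cf`, `aY * cf`; all objects and places are in
`[-T1, T1]`; the cutoff factor is at most `D exp (-q |t|)` and `S` bounds it at `T1`.
`CrudeC6`, `SharpC6`: the bounds of the gas integral, with the exponent `En` of the data kept.  Two numbers
of rows `I.s a`, two curves `I.η a`; all numbers are at most `kb * m`.  The parameters `P` are fixed
before the constants.
-/

set_option autoImplicit false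

noncomputable section

open MeasureTheory Finset
open scoped ENNReal

namespace NUSea.PLX.H0

open NUO (Xo ht TW excS)
open PHK NUStabP NUDispW

variable [Sea]

/-- **data of the gas**.  `κ`: the curve has size `m^(-κ)`; `k`: power of the logarithm in the mass
of the curve; `CB`: bound of the extra potentials and densities; `ϑ`: density of the energy of the
extra potential; `g`: places of the extra densities -/
structure DatC6 (ep e1 κ CB ϑ kb : ℝ) (k m : ℕ) (I : Inp) (P : Par6) {r : ℕ} (O : Fin r → Xo)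
    {G : ℕ} (g : Fin G → ℝ) (p n : ℕ) (aX aY cf B1 : ℝ → ℝ) (T1 D q S : ℝ) : Prop where
  s1 : ∀ a, (m : ℝ) / 2 ≤ I.s a
  s2 : ∀ a, I.s a ≤ kb * m
  pk : (p : ℝ) ≤ kb * m
  nk : (n : ℝ) ≤ kb * m
  rk : (r : ℝ) ≤ kb * m
  ok : ∃ (dl ε M : ℝ) (e : ℝ → ℝ), IOk6 dl ε M ((1 - e1) * NUO.Tb (Real.log m)) e I P ∧
    ε ≤ (m : ℝ) ^ (-κ) ∧ M ≤ Real.log m ^ k ∧ dl ≤ 3 * (m : ℝ) ^ (-κ)
  fld : Fld (datO6 I P O) p n
  shl : Shl (datO6 I P O) aX aY cf B1 D q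
  q1 : 49 / 20 ≤ q
  tw : TW ep e1 m + excS (TW ep e1 m) O ≤ T1
  DS : D * Real.exp (-(q * T1)) ≤ S
  gs : ∀ j, |g j| ≤ T1
  ν0 : ∀ a t, |I.ν a t| ≤ CB * (∑ j, Real.exp (-(5 / 2 * |t - g j|)) + NUH0.plt (TW ep e1 m) t)
  w0 : ∀ a t, |wO I a t| ≤ CB
  w1 : ∀ a T, 0 ≤ T → ∫ t in (-(T + 1))..(T + 1), (wO I a t ^ 2 + deriv (wO I a) t ^ 2) ≤
    CB + ϑ * (T + 1)

/-- the right side: mean field exponent, `En`, `K` per object, far factor, windows -/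
def confC6 (ep e1 : ℝ) (m : ℕ) (I : Inp) (P : Par6) (p n : ℕ) (K kap : ℝ) {r : ℕ}
    (O : Fin r → Xo) (T1 : ℝ) : ℝ :=
  MFs I.s p n + (datO6 I P O).En + K * r + 12 / 5 * (T1 - TW ep e1 m) +
    kap * win univ (fun i => ht (O i))

/-- **the crude bound** -/
def CrudeC6 (P : Par6) : Prop :=
  ∃ K Ca : ℝ, 0 ≤ K ∧ 0 ≤ Ca ∧ ∀ kb : ℝ, 1 ≤ kb → ∀ (G : ℕ) (kap : ℝ), 0 < kap →
    ∀ ep : ℝ, 0 < ep → ep ≤ 1 / 100 → ∀ e1 : ℝ, 0 < e1 → e1 ≤ 1 / 100 → ∀ δ : ℝ, 0 < δ →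
    ∀ (k : ℕ) (κ CB : ℝ), 0 < κ → 0 ≤ CB →
    ∃ ϑ Cst : ℝ, 0 < ϑ ∧ 0 ≤ Cst ∧ ∃ m0 : ℕ, ∀ m ≥ m0,
      ∀ (I : Inp) (r : ℕ) (O : Fin r → Xo) (g : Fin G → ℝ) (p n : ℕ)
        (aX aY cf B1 : ℝ → ℝ) (T1 D q S : ℝ),
      DatC6 ep e1 κ CB ϑ kb k m I P O g p n aX aY cf B1 T1 D q S →
        ∫⁻ x, ENNReal.ofReal (W0 (datO6 I P O) p n aX aY cf x) ≤
          ENNReal.ofReal ((p.factorial : ℝ) * n.factorial *
            (Cst * (m : ℝ) ^ (7 / 8 + Ca * (ep + e1) + δ) * (1 + S) *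
              Real.exp (confC6 ep e1 m I P p n K kap O T1)))

/-- **the sharp bound**: at most `log m` objects and places, at heights at most `(log m)^2`; `GD` =
the one body factors in the bulk; `S` bounds the cutoff at the end of the window -/
def SharpC6 (P : Par6) : Prop :=
  ∃ K Ca : ℝ, 0 ≤ K ∧ 0 ≤ Ca ∧ ∀ kb : ℝ, 1 ≤ kb → ∀ (G : ℕ) (kap : ℝ), 0 < kap →
    ∀ ep : ℝ, 0 < ep → ep ≤ 1 / 100 → ∀ e1 : ℝ, 0 < e1 → e1 ≤ 1 / 100 → ∀ δ : ℝ, 0 < δ →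
    ∀ (k : ℕ) (κ CB w : ℝ), 0 < κ → 0 ≤ CB → 0 < w → w ≤ 1 / 10 →
    ∃ ϑ Cst : ℝ, 0 < ϑ ∧ 0 ≤ Cst ∧ ∃ m0 : ℕ, ∀ m ≥ m0,
      ∀ (I : Inp) (r : ℕ) (O : Fin r → Xo) (g : Fin G → ℝ) (p n : ℕ)
        (aX aY cf B1 : ℝ → ℝ) (T1 D q S : ℝ),
      DatC6 ep e1 κ CB ϑ kb k m I P O g p n aX aY cf B1 T1 D q S →
      NUS4C.PLX.GD m k κ e1 w I.s (2 * Real.log m ^ 2) ((1 - e1) * NUO.Tb (Real.log m)) (I.η true)
        (I.η1 true) (I.η false) (I.η1 false) (fun t => aX t * cf t) (fun t => aY t * cf t) →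
      (r : ℝ) + G ≤ Real.log m → (∀ i, |ht (O i)| ≤ Real.log m ^ 2) →
      (∀ j, |g j| ≤ Real.log m ^ 2) → D * Real.exp (-(q * TW ep e1 m)) ≤ S →
        ∫⁻ x, ENNReal.ofReal (W0 (datO6 I P O) p n aX aY cf x) ≤
          ENNReal.ofReal ((p.factorial : ℝ) * n.factorial *
            (Cst * (m : ℝ) ^ (3 / 8 + Ca * (ep + e1) + δ) * (1 + S) *
              Real.exp (confC6 ep e1 m I P p n K kap O T1)))

end NUSea.PLX.H0
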