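import Pool.Agent.PHK.CfgC
import Pool.Agent.PLX.NUSea.H0.DatE0

/-!
# Symmetric energies: objects of the six kinds and sources

`sym_ob6`: the energy of an object and of a source of a charge is symmetric.
-/

set_option autoImplicit false

open MeasureTheory

namespace NUSea.PLX.H0

noncomputable section

open NUO (Xo)
open PHK

variable [Sea]

/-- an object of the six kinds and a source of a charge -/
theorem sym_ob6 {P : Par6} (hP : Ok6 P) {α q q0 : ℝ} {a b A B pa pb : ℝ → ℝ} {F G : ℂ → ℂ}
    (h : NUC43.Chg α q a b A B F G) (x : Xo) (s : Bool) (t : ℝ) :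
    NUGC.Sym (obSr6 P x) (NUGC.chSr s q0 pa pb F G t) := sym_ch (chgK6 hP (k6 x)) h _ _ _ _

end

end NUSea.PLX.H0
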