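import Pool.Agent.PHK.H0.CfgS6
import Pool.Agent.PHK.H0.DatC
import Pool.Agent.PHK.H0.DatE06

/-!
# The exponent `En` of the data of a configuration of the six kinds with spectators

`X = datO6 I P O` with `I.ν a = muS T a`, `I.τD = tauS T` for a family `T` of sources (spectators) and
any analytic potentials `I.A`, real potentials `I.B`:

`En = ∑_i [mfo6 s - 2 π wind6 s P η] + 1/2 ∑∑ ER6 + ∑_i ∑_d ES(O_i, T_d) + 1/2 ∑∑ ES(T, T)
  + ∑_a ∫ s_a P Re A_a - ∑_a Re ∫ B_a A_a(ζ_a) + ∑_a ∫ s_a P B_a + ∑_a ∫ μ_a φ_a + bil h' h' + small`; the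
current `s P η` is that of the species `true`.
-/

set_option autoImplicit false
set_option linter.unusedSectionVars false

open MeasureTheory Set Filter Topology Complex

namespace NUSea.PLX.H0

noncomputable section

open PHK
open NUO (Xo ht)
open NUGC (Sr ES muS tauS)

variable [Sea]

/-- **The exponent of a configuration with spectators.** -/
theorem En_cfgC6 {δ : ℝ} (hδ : 0 < δ) (hδ1 : δ ≤ 2 / 7) : ∃ C : ℝ, 1 ≤ C ∧
    ∀ (ε M b K : ℝ) (e : ℝ → ℝ) (I : Inp) (Q : Par6) (r : ℕ) (O' : Fin r → Xo) (κ : Type) [Fintype κ]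
      (T : κ → Sr), Ok6 Q → PG6 δ Q → (∀ a, 0 ≤ I.s a) → (∀ a, Cur (I.s a) ε M b e (I.η a)) →
      (∀ a t, HasDerivAt (I.η a) (I.η1 a t) t) → Com M I.s e I.η I.η1 → 0 ≤ b →
      C * (b + 1) ^ 7 * ε ≤ 1 → 0 ≤ K →
      (∀ t t', |I.s true * P t * I.η true t - I.s true * P t' * I.η true t'| ≤ K * |t - t'|) →
      (∀ a, NUAct.Ext (δ * NUMF.l / 2) (I.A a)) → (∀ a, Integrable fun t => P t * I.B a t) →
      (∀ d, (T d).Ok) → (∀ i d, NUGC.Sym (obSr6 Q (O' i)) (T d)) →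
      (∀ a, I.ν a = muS T a) → I.τD = tauS T →
      |(datO6 I Q O').En - ((∑ i, (mfo6 I.s (parts6 Q (O' i)) -
          2 * Real.pi * (wind6 (k6 (O' i)) * (I.s true * P (ht (O' i)) * I.η true (ht (O' i)))))) +
        1 / 2 * (∑ i, ∑ k, ER6 Q (NUO.sp (O' i) == NUO.sp (O' k)) (k6 (O' i)) (k6 (O' k))
          (ht (O' i)) (ht (O' k))) +
        (∑ i, ∑ d, ES (obSr6 Q (O' i)) (T d)) + 1 / 2 * (∑ d, ∑ d', ES (T d) (T d')) +
        (∫ t : ℝ, P t * (I.s true * (I.A true t).re + I.s false * (I.A false t).re)) -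
        (∑ a, (∫ t, Bf (I.s a) (NUKer.iD (I.η a)) (NUKer.iD (I.η1 a)) t *
          I.A a (NUAct.zt (NUKer.iD (I.η a)) t)).re) +
        (∑ a, ∫ t, I.s a * P t * I.B a t) +
        (∑ a, ∫ t, (datO6 I Q O').μ a t * (datO6 I Q O').φ a t) +
        NUCR.bil (NUSea.PLX.hd (I.s true) (I.η true) (I.η1 true))
          (NUSea.PLX.hd (I.s true) (I.η true) (I.η1 true)))| ≤
        C * r * (M * ε + K) + C * (b + 1) ^ 9 * M ^ 2 * ε := by
  obtain ⟨C, hC, H⟩ := S_cfg6 hδ hδ1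
  refine ⟨C, hC, ?_⟩
  intro ε M b K e I Q r O' κ _ T hOk hQ hs hcur h1 hcom hb hsm hK hKL hAe hB hT hsy hν hτ
  have h2 := H I.s ε M b K e I.η I.η1 Q r O' I.A hOk hQ hs hcur h1 hcom hb hsm hK hKL hAe
  have hS : (datO6 I Q O').gas.S = (gas I.s I.η I.η1 (fun a z => FO6 Q O' a z + I.A a z)).S := rfl
  have hE := cfgM_energy6 hOk O' hT hsy
  have e1 : (∫ t, (datO6 I Q O').τ t * (datO6 I Q O').Gt t) =
      ∫ t, tauM6 Q O' T t * NUC43.lgp (tauM6 Q O' T) t := by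
    have : (datO6 I Q O').τ = tauM6 Q O' T := by
      funext t
      show tauC6 Q O' t + I.τD t = _
      rw [hτ]
      rfl
    unfold Dat.Gt NUC43.lgp
    rw [this]
  have e2 : ∀ a, (∫ t, (datO6 I Q O').μ a t * (datO6 I Q O').Vm a t) =
      ∫ t, muM6 Q O' T a t * ∫ u, muM6 Q O' T a u * NUMF.V (t - u) := by
    intro a
    have : (datO6 I Q O').μ a = muM6 Q O' T a := by
      funext t
      show muC6 Q O' a t + I.ν a t = _
      rw [hν]
      rfl
    unfold Dat.Vm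
    rw [this]
  have e3 : ∀ a, (∫ t, (datO6 I Q O').ρ a t * (datO6 I Q O').E a t) =
      ∫ t, I.s a * P t * I.B a t := fun a => rfl
  have hEn : (datO6 I Q O').En =
      (gas I.s I.η I.η1 (fun a z => FO6 Q O' a z + I.A a z)).S +
      (1 / 2 * (∑ i, ∑ k, ER6 Q (NUO.sp (O' i) == NUO.sp (O' k)) (k6 (O' i)) (k6 (O' k))
        (ht (O' i)) (ht (O' k))) +
      (∑ i, ∑ d, ES (obSr6 Q (O' i)) (T d)) + 1 / 2 * (∑ d, ∑ d', ES (T d) (T d'))) +
      (∑ a, ∫ t, I.s a * P t * I.B a t) + ∑ a, ∫ t, (datO6 I Q O').μ a t * (datO6 I Q O').φ a t := by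
    unfold Dat.En
    rw [hS, e1]
    simp_rw [e2, e3]
    rw [← hE, Fintype.sum_bool, Fintype.sum_bool, Fintype.sum_bool, Fintype.sum_bool]
    ring
  rw [hEn]
  refine le_trans (le_of_eq ?_) h2
  congr 1
  ring

end

end NUSea.PLX.H0
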