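import Pool.Agent.PHK.H0.DatC
import Pool.Agent.PLX.NUSea.H0.DatNC

/-!
# The remainder of the data of a configuration of the six kinds: bounds, local energy

`φ a = Qr6 a + dFB6 a + wO a`.  As `PLX/NUSea/H0/DatNC`, the terms of the circles and of the spread are
absent.
-/

set_option autoImplicit false
set_option linter.unusedSectionVars false

open MeasureTheory Set Filter Topology

namespace NUSea.PLX.H0

open NUMF NUKer NUAct NUDispP NUDispV NUDispW NUEnW PHK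
open NUO (Xo sp ht)
open NU42 (norm_iD Crv iD_cont)
open NUH0 (sq3)

noncomputable section

variable [Sea]

variable {r : ℕ} {I : Inp} {P : Par6} {O : Fin r → Xo} {dl ε M b : ℝ} {e : ℝ → ℝ}

lemma phiO6_eq (a : Bool) (t : ℝ) :
    phiO6 I P O a t = Qr6 I P O a t + dFB6 P O (I.η a) a t + wO I a t := rfl

lemma sin128 : 0 < Real.sin (1 / 128 * NUMF.l) := by
  have hl := NUMF.l_pos
  refine Real.sin_pos_of_pos_of_lt_pi (by positivity) ?_
  unfold NUMF.l
  linarith [Real.pi_pos]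

lemma Bd6_eq (x : ℝ) : Bd6 (1 / 128) x = 400 / Real.sin (1 / 128 * NUMF.l) ^ 4 * x := by
  unfold Bd6
  ring

/-- the quadratic part is `C^1` -/
theorem exists_Qr6 : ∃ K : ℝ, 1 ≤ K ∧ ∀ {r : ℕ} {I : Inp} {P : Par6} {O : Fin r → Xo}
    {dl ε M b : ℝ} {e : ℝ → ℝ}, IOk6 dl ε M b e I P → ∀ a, ContDiff ℝ 1 (Qr6 I P O a) ∧
      ∀ t, |Qr6 I P O a t| ≤ K * (M * ε) * Wb b t ∧ |deriv (Qr6 I P O a) t| ≤ K * (M * ε) * Wb b t := by
  obtain ⟨K, hK, H⟩ := exists_phiQ''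
  refine ⟨K, hK, fun {r I P O dl ε M b e} h a => ?_⟩
  obtain ⟨Q', h1, h2, h3, h4⟩ := H h.s0 h.b0 (h.ε1.trans (by norm_num)) h.cur h.der h.com (FA6 I P O)
  have e1 : deriv (Qr6 I P O a) = Q' a := funext fun t => (h2 a t).deriv
  refine ⟨?_, fun t => ⟨h3 a t, ?_⟩⟩
  · rw [contDiff_one_iff_deriv, e1]
    exact ⟨fun t => (h2 a t).differentiableAt, h1 a⟩
  · rw [e1]
    exact h4 a t

namespace IOk6

variable (h : IOk6 dl ε M b e I P)

include h

theorem Qr_C1 (a : Bool) : ContDiff ℝ 1 (Qr6 I P O a) := by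
  obtain ⟨K, hK, H⟩ := exists_Qr6
  exact (H h a).1

theorem wO_C1 (a : Bool) : ContDiff ℝ 1 (wO I a) := h.wc a

/-- **regularity of the data** -/
theorem reg' : Reg (datO6 I P O) := h.reg fun a => h.Qr_C1 a

end IOk6

/-- **size of the remainder** -/
theorem exists_phi_le6 : ∃ K : ℝ, 1 ≤ K ∧ ∀ {r : ℕ} {I : Inp} {P : Par6} {O : Fin r → Xo}
    {dl ε M b : ℝ} {e : ℝ → ℝ}, IOk6 dl ε M b e I P → ∀ a t,
      |phiO6 I P O a t| ≤ K * (M * ε + dl * r) + |wO I a t| := by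
  obtain ⟨K, hK, H⟩ := exists_Qr6
  have hs := sin128
  have hW := Wm_nonneg
  obtain ⟨K1, hK1⟩ : ∃ K1 : ℝ, K1 = 400 / Real.sin (1 / 128 * NUMF.l) ^ 4 := ⟨_, rfl⟩
  have p1 : 0 < K1 := by rw [hK1]; positivity
  refine ⟨1 + K * Wm + K1, by
    have : 0 ≤ K * Wm := by positivity
    linarith, fun {r I P O dl ε M b e} h a t => ?_⟩
  obtain ⟨F', f1, f2, f3, f4⟩ := h.exists_dFB (O := O) a
  have q := ((H (O := O) h a).2 t).1
  have hM := h.M0
  have hε := h.eps0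
  have hd := h.dl0
  have b2 : bmaj Finset.univ (fun i => ht (O i)) 2 t ≤ r := by
    refine (bmaj_le_card (by norm_num) _ _ _).trans (by simp)
  have b3 := f3 t
  rw [Bd6_eq, ← hK1] at b3
  have b4 : K1 * dl * bmaj Finset.univ (fun i => ht (O i)) 2 t ≤ K1 * dl * r := by gcongr
  have b5 : K * (M * ε) * Wb b t ≤ K * (M * ε) * Wm :=
    mul_le_mul_of_nonneg_left (Wb_le b t) (by positivity)
  rw [phiO6_eq]
  refine (abs_add_three _ _ _).trans ?_
  have n1 : 0 ≤ M * ε := by positivity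
  have n2 : 0 ≤ dl * r := by positivity
  have n3 : 0 ≤ K * Wm := by positivity
  nlinarith [mul_nonneg n3 n1, mul_nonneg n3 n2, mul_nonneg p1.le n1, mul_nonneg p1.le n2]

/-! ### the local energy -/

/-- **local energy of the remainder** -/
theorem exists_NT6 : ∃ K : ℝ, 1 ≤ K ∧ ∀ {r : ℕ} {I : Inp} {P : Par6} {O : Fin r → Xo}
    {dl ε M b : ℝ} {e : ℝ → ℝ}, IOk6 dl ε M b e I P → ∀ (T : ℝ), 0 ≤ T → ∀ a,
      Nl (datO6 I P O) T a ≤ K * ((M * ε) ^ 2 * b + dl ^ 2 * win Finset.univ (fun i => ht (O i))) +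
        3 * NW I T a := by
  obtain ⟨K, hK, H⟩ := exists_Qr6
  have hs := sin128
  have hW := Wm_nonneg
  obtain ⟨K1, hK1⟩ : ∃ K1 : ℝ, K1 = 400 / Real.sin (1 / 128 * NUMF.l) ^ 4 := ⟨_, rfl⟩
  have p1 : 0 < K1 := by rw [hK1]; positivity
  have hKc := Kc_pos (c := 2) (by norm_num)
  refine ⟨1 + 12 * K ^ 2 * Wm ^ 2 + 6 * K1 ^ 2 * Kc 2, by
    have : 0 ≤ 12 * K ^ 2 * Wm ^ 2 + 6 * K1 ^ 2 * Kc 2 := by positivity
    linarith, fun {r I P O dl ε M b e} h T hT a => ?_⟩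
  obtain ⟨F', f1, f2, f3, f4⟩ := h.exists_dFB (O := O) a
  obtain ⟨hQc, hQ⟩ := H (O := O) h a
  have hM := h.M0
  have hε := h.eps0
  have hd := h.dl0
  have hb := h.b0
  have hw := win_nonneg (Finset.univ : Finset (Fin r)) fun i => ht (O i)
  have hwc := h.wO_C1 a
  have hφc := h.phi_C1 (O := O) (fun a => h.Qr_C1 a) a
  set β : ℝ → ℝ := fun t => bmaj Finset.univ (fun i => ht (O i)) 2 t with hβ
  -- the derivative of the remainder
  have hder : ∀ t, deriv (phiO6 I P O a) t = deriv (Qr6 I P O a) t + F' t + deriv (wO I a) t := by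
    intro t
    have e1 : phiO6 I P O a = fun t => Qr6 I P O a t + dFB6 P O (I.η a) a t + wO I a t :=
      funext fun t => phiO6_eq a t
    rw [e1]
    exact ((((hQc.differentiable (by norm_num)) t).hasDerivAt.add (f1 t)).add
      ((hwc.differentiable (by norm_num)) t).hasDerivAt).deriv
  -- pointwise bound
  have hpt : ∀ t, phiO6 I P O a t ^ 2 + deriv (phiO6 I P O a) t ^ 2 ≤
      3 * (2 * (K ^ 2 * (M * ε) ^ 2) * Wb b t ^ 2 + 2 * (K1 * dl) ^ 2 * β t ^ 2 +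
        (wO I a t ^ 2 + deriv (wO I a) t ^ 2)) := by
    intro t
    have g1 := f3 t
    have g2 := f4 t
    rw [Bd6_eq, ← hK1] at g1
    rw [Bd6_eq, ← hK1] at g2
    have g3 := hQ t
    have hβ0 : 0 ≤ β t := bmaj_nonneg _ _ _ _
    have hWb := Wb_nonneg b t
    have a1 : Qr6 I P O a t ^ 2 ≤ K ^ 2 * (M * ε) ^ 2 * Wb b t ^ 2 := by
      rw [← sq_abs]
      calc |Qr6 I P O a t| ^ 2 ≤ (K * (M * ε) * Wb b t) ^ 2 := by gcongr; exact g3.1
        _ = _ := by ring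
    have a2 : deriv (Qr6 I P O a) t ^ 2 ≤ K ^ 2 * (M * ε) ^ 2 * Wb b t ^ 2 := by
      rw [← sq_abs]
      calc |deriv (Qr6 I P O a) t| ^ 2 ≤ (K * (M * ε) * Wb b t) ^ 2 := by gcongr; exact g3.2
        _ = _ := by ring
    have a3 : dFB6 P O (I.η a) a t ^ 2 ≤ (K1 * dl) ^ 2 * β t ^ 2 := by
      rw [← sq_abs]
      calc |dFB6 P O (I.η a) a t| ^ 2 ≤ (K1 * dl * β t) ^ 2 := by gcongr
        _ = _ := by ring
    have a4 : F' t ^ 2 ≤ (K1 * dl) ^ 2 * β t ^ 2 := by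
      rw [← sq_abs]
      calc |F' t| ^ 2 ≤ (K1 * dl * β t) ^ 2 := by gcongr
        _ = _ := by ring
    rw [hder, phiO6_eq]
    have b1 := sq3 (Qr6 I P O a t) (dFB6 P O (I.η a) a t) (wO I a t)
    have b2 := sq3 (deriv (Qr6 I P O a) t) (F' t) (deriv (wO I a) t)
    linarith
  -- integration
  have hle : -(T + 1) ≤ T + 1 := by linarith
  have cβ : Continuous β := bmaj_cont _ _ _
  have iWb : Integrable (fun t => Wb b t ^ 2) ∧ ∫ t, Wb b t ^ 2 ≤ 2 * Wm ^ 2 * b := by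
    obtain ⟨i1, e1⟩ := Wb_int hb
    have h1 : ∀ t, Wb b t ^ 2 ≤ Wm * Wb b t := fun t => by
      have h3 := Wb_le b t
      have h4 := Wb_nonneg b t
      nlinarith
    have i2 : Integrable fun t => Wb b t ^ 2 := by
      refine (i1.const_mul Wm).mono' (i1.aestronglyMeasurable.pow 2) (ae_of_all _ fun t => ?_)
      rw [Real.norm_eq_abs, abs_of_nonneg (sq_nonneg _)]
      exact h1 t
    refine ⟨i2, (integral_mono i2 (i1.const_mul Wm) h1).trans (le_of_eq ?_)⟩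
    rw [integral_const_mul, e1]
    ring
  have iβ := bmaj_sq_int (c := 2) (by norm_num) (Finset.univ : Finset (Fin r)) fun i => ht (O i)
  have iβ' := sq_int' (c := 2) (by norm_num) (Finset.univ : Finset (Fin r)) fun i => ht (O i)
  have cw : Continuous fun t => wO I a t ^ 2 + deriv (wO I a) t ^ 2 :=
    (hwc.continuous.pow 2).add ((hwc.continuous_deriv le_rfl).pow 2)
  have j1 : IntervalIntegrable (fun t => 2 * (K ^ 2 * (M * ε) ^ 2) * Wb b t ^ 2) volume
      (-(T + 1)) (T + 1) := (iWb.1.const_mul _).intervalIntegrable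
  have j2 : IntervalIntegrable (fun t => 2 * (K1 * dl) ^ 2 * β t ^ 2) volume
      (-(T + 1)) (T + 1) := (continuous_const.mul (cβ.pow 2)).intervalIntegrable _ _
  have j4 : IntervalIntegrable (fun t => wO I a t ^ 2 + deriv (wO I a) t ^ 2) volume
      (-(T + 1)) (T + 1) := cw.intervalIntegrable _ _
  have cφ : Continuous fun t => phiO6 I P O a t ^ 2 + deriv (phiO6 I P O a) t ^ 2 :=
    (hφc.continuous.pow 2).add ((hφc.continuous_deriv le_rfl).pow 2)
  have k1 : ∫ t in (-(T + 1))..(T + 1), 2 * (K ^ 2 * (M * ε) ^ 2) * Wb b t ^ 2 ≤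
      2 * (K ^ 2 * (M * ε) ^ 2) * (2 * Wm ^ 2 * b) := by
    rw [intervalIntegral.integral_const_mul, intervalIntegral.integral_of_le hle]
    refine mul_le_mul_of_nonneg_left ?_ (by positivity)
    exact (setIntegral_le_integral iWb.1 (ae_of_all _ fun t => sq_nonneg _)).trans iWb.2
  have k2 : ∫ t in (-(T + 1))..(T + 1), 2 * (K1 * dl) ^ 2 * β t ^ 2 ≤
      2 * (K1 * dl) ^ 2 * (Kc 2 * win Finset.univ fun i => ht (O i)) := by
    rw [intervalIntegral.integral_const_mul, intervalIntegral.integral_of_le hle]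
    refine mul_le_mul_of_nonneg_left ?_ (by positivity)
    exact (setIntegral_le_integral iβ.1 (ae_of_all _ fun t => sq_nonneg _)).trans iβ'
  have e0 : Nl (datO6 I P O) T a =
      ∫ t in (-(T + 1))..(T + 1), (phiO6 I P O a t ^ 2 + deriv (phiO6 I P O a) t ^ 2) := rfl
  rw [e0]
  refine (intervalIntegral.integral_mono_on hle (cφ.intervalIntegrable _ _)
    (((j1.add j2).add j4).const_mul 3) fun t _ => hpt t).trans ?_
  rw [intervalIntegral.integral_const_mul, intervalIntegral.integral_add (j1.add j2) j4,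
    intervalIntegral.integral_add j1 j2]
  have e5 : ∫ t in (-(T + 1))..(T + 1), (wO I a t ^ 2 + deriv (wO I a) t ^ 2) = NW I T a := rfl
  rw [e5]
  obtain ⟨q, hq⟩ : ∃ q : ℝ, q = (M * ε) ^ 2 * b := ⟨_, rfl⟩
  obtain ⟨u, hu⟩ : ∃ u : ℝ, u = dl ^ 2 * win Finset.univ fun i => ht (O i) := ⟨_, rfl⟩
  have q0 : 0 ≤ q := by rw [hq]; positivity
  have u0 : 0 ≤ u := by rw [hu]; positivity
  have k1' : 2 * (K ^ 2 * (M * ε) ^ 2) * (2 * Wm ^ 2 * b) = 4 * K ^ 2 * Wm ^ 2 * q := by rw [hq]; ring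
  have k2' : 2 * (K1 * dl) ^ 2 * (Kc 2 * win Finset.univ fun i => ht (O i)) =
      2 * K1 ^ 2 * Kc 2 * u := by rw [hu]; ring
  rw [k1'] at k1
  rw [k2'] at k2
  rw [← hq, ← hu]
  have m1 : 0 ≤ 12 * K ^ 2 * Wm ^ 2 := by positivity
  have m2 : 0 ≤ 6 * K1 ^ 2 * Kc 2 := by positivity
  nlinarith [mul_nonneg m1 u0, mul_nonneg m2 q0]

/-! ### the linear term -/

/-- the densities of the configuration against a bounded function -/
theorem exists_mu_w6 {P : Par6} (hP : Ok6 P) : ∃ K : ℝ, 1 ≤ K ∧ ∀ {r : ℕ} {O : Fin r → Xo}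
    (a : Bool) {w : ℝ → ℝ} {W : ℝ}, Continuous w → (∀ t, |w t| ≤ W) →
      Integrable (fun t => muC6 P O a t * w t) ∧
      |∫ t, muC6 P O a t * w t| ≤ K * r * W := by
  obtain ⟨M, hM, H⟩ := muC_bd6 hP
  refine ⟨1 + M * (2 / (5 / 2)), by
    have : 0 ≤ M * (2 / (5 / 2)) := by positivity
    linarith, fun {r O} a {w W} hw hW => ?_⟩
  have hW0 : 0 ≤ W := (abs_nonneg _).trans (hW 0)
  have hd := dn_muC6 hP O a
  have hμ : ∀ t, |muC6 P O a t| ≤ M * bmaj Finset.univ (fun i => ht (O i)) (5 / 2) t := by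
    intro t
    refine ((H (Fin r) O a t).1).trans_eq ?_
    unfold bmaj
    congr 1
    exact Finset.sum_congr rfl fun i _ => by ring_nf
  obtain ⟨i1, i2, -⟩ := abs_int (c := 5 / 2) (s := Finset.univ) (τ := fun i => ht (O i)) (by norm_num) hM
    hd.cont.aestronglyMeasurable hμ
  have i3 := int_mul_bc i1 hw hW
  refine ⟨i3, ?_⟩
  refine abs_integral_le_integral_abs.trans ?_
  have h1 : ∫ t, |muC6 P O a t * w t| ≤ ∫ t, |muC6 P O a t| * W := by
    refine integral_mono i3.abs (i1.abs.mul_const W) fun t => ?_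
    simp only
    rw [abs_mul]
    exact mul_le_mul_of_nonneg_left (hW t) (abs_nonneg _)
  rw [integral_mul_const] at h1
  refine h1.trans ?_
  have h2 : (∫ t, |muC6 P O a t|) * W ≤ (M * (2 / (5 / 2)) * r) * W := by
    refine mul_le_mul_of_nonneg_right (i2.trans (le_of_eq ?_)) hW0
    simp
  refine h2.trans ?_
  have : 0 ≤ (r : ℝ) * W := by positivity
  linarith

/-- **the linear term of the remainder** -/
theorem exists_muphi6 {P : Par6} (hP : Ok6 P) : ∃ K : ℝ, 1 ≤ K ∧ ∀ {r : ℕ} {I : Inp}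
    {O : Fin r → Xo} {dl ε M b : ℝ} {e : ℝ → ℝ}, IOk6 dl ε M b e I P → ∀ a,
      ∀ W : ℝ, (∀ t, |wO I a t| ≤ W) →
      Integrable (fun t => muC6 P O a t * phiO6 I P O a t) ∧
      |∫ t, muC6 P O a t * phiO6 I P O a t| ≤
        K * (r * (M * ε + W) + dl * win Finset.univ (fun i => ht (O i))) := by
  obtain ⟨K, hK, H⟩ := exists_Qr6
  obtain ⟨K3, hK3, H3⟩ := exists_mu_w6 hP
  obtain ⟨Mm, hMm, Hm⟩ := muC_bd6 hP
  have hs := sin128
  have hW := Wm_nonneg
  obtain ⟨K1, hK1⟩ : ∃ K1 : ℝ, K1 = 400 / Real.sin (1 / 128 * NUMF.l) ^ 4 := ⟨_, rfl⟩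
  have p1 : 0 < K1 := by rw [hK1]; positivity
  have hKm := Kc_pos (c := min (5 / 2) 2) (by norm_num)
  refine ⟨1 + K3 * (K * Wm) + K3 + Mm * K1 * Kc (min (5 / 2) 2), by
    have : 0 ≤ K3 * (K * Wm) + K3 + Mm * K1 * Kc (min (5 / 2) 2) := by positivity
    linarith, fun {r I O dl ε M b e} h a W hwb => ?_⟩
  obtain ⟨F', f1, f2, f3, f4⟩ := h.exists_dFB (O := O) a
  obtain ⟨hQc, hQ⟩ := H (O := O) h a
  have hM := h.M0
  have hε := h.eps0
  have hd := h.dl0
  have hw := win_nonneg (Finset.univ : Finset (Fin r)) fun i => ht (O i)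
  have hWW : 0 ≤ W := (abs_nonneg _).trans (hwb 0)
  have hdn := dn_muC6 hP O a
  have hμ : ∀ t, |muC6 P O a t| ≤ Mm * bmaj Finset.univ (fun i => ht (O i)) (5 / 2) t := by
    intro t
    refine ((Hm (Fin r) O a t).1).trans_eq ?_
    unfold bmaj
    congr 1
    exact Finset.sum_congr rfl fun i _ => by ring_nf
  have cF : Continuous (dFB6 P O (I.η a) a) := continuous_iff_continuousAt.2 fun t => (f1 t).continuousAt
  have b1 : ∀ t, |dFB6 P O (I.η a) a t| ≤ K1 * dl * bmaj Finset.univ (fun i => ht (O i)) 2 t := by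
    intro t
    have g1 := f3 t
    rwa [Bd6_eq, ← hK1] at g1
  obtain ⟨i1, i2⟩ := mul_int (s := Finset.univ) (τ := fun i => ht (O i)) (c := 5 / 2) (d := 2)
    (A := Mm) (B := K1 * dl) (by norm_num) (by norm_num) hMm (mul_nonneg p1.le hd)
    hdn.cont.aestronglyMeasurable cF.aestronglyMeasurable hμ b1
  -- the bounded part
  have cw := (h.wO_C1 a).continuous
  have b3 : ∀ t, |Qr6 I P O a t + wO I a t| ≤ K * (M * ε) * Wm + W := by
    intro t
    have q1 : |Qr6 I P O a t| ≤ K * (M * ε) * Wm :=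
      ((hQ t).1).trans (mul_le_mul_of_nonneg_left (Wb_le b t) (by positivity))
    exact (abs_add_le _ _).trans (add_le_add q1 (hwb t))
  obtain ⟨i3, i4⟩ := H3 (O := O) (w := fun t => Qr6 I P O a t + wO I a t) a
    (hQc.continuous.add cw) b3
  have e2 : (fun t => muC6 P O a t * phiO6 I P O a t) = fun t =>
      muC6 P O a t * dFB6 P O (I.η a) a t + muC6 P O a t * (Qr6 I P O a t + wO I a t) := by
    funext t
    rw [phiO6_eq]
    ring
  rw [e2]
  refine ⟨i1.add i3, ?_⟩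
  rw [integral_add i1 i3]
  refine (abs_add_le _ _).trans ?_
  have k1 : |∫ t, muC6 P O a t * dFB6 P O (I.η a) a t| ≤
      Mm * (K1 * dl) * Kc (min (5 / 2) 2) * win Finset.univ fun i => ht (O i) :=
    abs_integral_le_integral_abs.trans i2
  refine (add_le_add k1 i4).trans ?_
  set w0 : ℝ := win Finset.univ fun i => ht (O i) with hw0
  have r0 : (0 : ℝ) ≤ r := Nat.cast_nonneg r
  obtain ⟨X, hX⟩ : ∃ X : ℝ, X = K3 * (K * Wm) + K3 := ⟨_, rfl⟩
  obtain ⟨Y, hY⟩ : ∃ Y : ℝ, Y = Mm * K1 * Kc (min (5 / 2) 2) := ⟨_, rfl⟩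
  have x0 : 0 ≤ X := by rw [hX]; positivity
  have y0 : 0 ≤ Y := by rw [hY]; positivity
  have s1 : K3 * r * (K * (M * ε) * Wm + W) ≤ X * (r * (M * ε + W)) := by
    have z1 : 0 ≤ K * Wm := by positivity
    have z2 : 0 ≤ M * ε := by positivity
    have z3 : K * (M * ε) * Wm + W ≤ (K * Wm + 1) * (M * ε + W) := by
      nlinarith [mul_nonneg z1 hWW]
    calc K3 * r * (K * (M * ε) * Wm + W) ≤
        K3 * r * ((K * Wm + 1) * (M * ε + W)) := mul_le_mul_of_nonneg_left z3 (by positivity)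
      _ = X * (r * (M * ε + W)) := by rw [hX]; ring
  have s2 : Mm * (K1 * dl) * Kc (min (5 / 2) 2) * w0 = Y * (dl * w0) := by rw [hY]; ring
  rw [s2]
  have z4 : 0 ≤ (r : ℝ) * (M * ε + W) := by positivity
  have z5 : 0 ≤ dl * w0 := by positivity
  have e9 : 1 + K3 * (K * Wm) + K3 + Mm * K1 * Kc (min (5 / 2) 2) = 1 + X + Y := by
    rw [hX, hY]; ring
  rw [e9]
  nlinarith [mul_nonneg x0 z5, mul_nonneg y0 z4]

/-- the densities of the spectators against the remainder -/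
theorem exists_nuphi6 : ∃ K : ℝ, 1 ≤ K ∧ ∀ {r : ℕ} {I : Inp} {P : Par6}
    {O : Fin r → Xo} {dl ε M b : ℝ} {e : ℝ → ℝ}, IOk6 dl ε M b e I P → ∀ a,
      ∀ W : ℝ, (∀ t, |wO I a t| ≤ W) →
      Integrable (fun t => I.ν a t * phiO6 I P O a t) ∧
      |∫ t, I.ν a t * phiO6 I P O a t| ≤
        (∫ t, |I.ν a t|) * (K * (M * ε + dl * r) + W) := by
  obtain ⟨K, hK, H⟩ := exists_phi_le6
  refine ⟨K, hK, fun {r I P O dl ε M b e} h a W hW => ?_⟩
  have hc := (h.phi_C1 (O := O) (fun a => h.Qr_C1 a) a).continuous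
  have hb : ∀ t, |phiO6 I P O a t| ≤ K * (M * ε + dl * r) + W := fun t =>
    (H h a t).trans (add_le_add le_rfl (hW t))
  have i1 := int_mul_bc (h.νi a) hc hb
  refine ⟨i1, ?_⟩
  refine abs_integral_le_integral_abs.trans ?_
  rw [← integral_mul_const]
  refine integral_mono i1.abs ((h.νi a).abs.mul_const _) fun t => ?_
  simp only
  rw [abs_mul]
  exact mul_le_mul_of_nonneg_left (hb t) (abs_nonneg _)

/-- **the whole linear term** -/
theorem exists_muphi_tot6 {P : Par6} (hP : Ok6 P) : ∃ K : ℝ, 1 ≤ K ∧ ∀ {r : ℕ} {I : Inp}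
    {O : Fin r → Xo} {dl ε M b : ℝ} {e : ℝ → ℝ}, IOk6 dl ε M b e I P → ∀ a,
      ∀ W : ℝ, (∀ t, |wO I a t| ≤ W) →
      Integrable (fun t => (datO6 I P O).μ a t * (datO6 I P O).φ a t) ∧
      |∫ t, (datO6 I P O).μ a t * (datO6 I P O).φ a t| ≤
        K * (r * (M * ε + W) + dl * win Finset.univ (fun i => ht (O i))) +
        (∫ t, |I.ν a t|) * (K * (M * ε + dl * r) + W) := by
  obtain ⟨K1, hK1, H1⟩ := exists_muphi6 hP
  obtain ⟨K2, hK2, H2⟩ := exists_nuphi6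
  refine ⟨max K1 K2, hK1.trans (le_max_left _ _), fun {r I O dl ε M b e} h a W hW => ?_⟩
  obtain ⟨i1, e1⟩ := H1 (O := O) h a W hW
  obtain ⟨i2, e2⟩ := H2 (O := O) h a W hW
  have hM := h.M0
  have hε := h.eps0
  have hd := h.dl0
  have hw := win_nonneg (Finset.univ : Finset (Fin r)) fun i => ht (O i)
  have hWW : 0 ≤ W := (abs_nonneg _).trans (hW 0)
  have hν : 0 ≤ ∫ t, |I.ν a t| := integral_nonneg fun _ => abs_nonneg _
  have e3 : ∀ t, (datO6 I P O).μ a t * (datO6 I P O).φ a t =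
      muC6 P O a t * phiO6 I P O a t + I.ν a t * phiO6 I P O a t := by
    intro t
    show (muC6 P O a t + I.ν a t) * phiO6 I P O a t = _
    ring
  simp_rw [e3]
  refine ⟨i1.add i2, ?_⟩
  rw [integral_add i1 i2]
  refine (abs_add_le _ _).trans (add_le_add (e1.trans ?_) (e2.trans ?_))
  · exact mul_le_mul_of_nonneg_right (le_max_left _ _) (by positivity)
  · refine mul_le_mul_of_nonneg_left ?_ hν
    have : K2 * (M * ε + dl * r) ≤ max K1 K2 * (M * ε + dl * r) :=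
      mul_le_mul_of_nonneg_right (le_max_right _ _) (by positivity)
    linarith

end

end NUSea.PLX.H0
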