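import Pool.Agent.PHK.WK
import Pool.Agent.PHK.OneB
import Pool.Agent.PHK.SEval6

/-!
# The constant of the action for a configuration of objects of the six kinds, two species

`S_cfg6`: two row numbers `s : Bool → ℝ` and two curves with nearly equal currents:

`gas.S = ∑_i (mfo6 s - 2 π wind6 h) + ∫ P (s true Re A true + s false Re A false) + bil h' h'
  - ∑_a Re ∫ B_a A_a(ζ_a) + small`, `h = s true P η true`.
-/

set_option autoImplicit false
set_option linter.unusedSectionVars false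

open MeasureTheory Set Filter Topology Complex

noncomputable section

namespace NUSea.PLX.H0

open PHK
open NUO (Xo ht sp Off fq fg wnu)
open NUMF (lq lqg)
open NUAct (Ext)

variable [Sea]

variable {δ : ℝ} {Q : Par6} {r : ℕ}

/-- own species or the other one -/
def os6 (σ o : Bool) : Bool := if o = true then σ else !σ

lemma os6_eq (a σ o : Bool) : ((a = σ) = (o = true)) = (a = os6 σ o) := by
  cases a <;> cases σ <;> cases o <;> simp [os6]

/-- the potential of an object over its quanta -/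
theorem fO6_os (Q : Par6) (x : Xo) (a : Bool) (z : ℂ) : fO6 Q x a z =
    ((offK6 Q (k6 x)).map fun p => ((p.2.2 : ℝ) : ℂ) *
      (if a = os6 (sp x) p.1 then fq p.2.1 else fg p.2.1) (z - ht x)).sum := by
  rw [fO6_eq]
  congr 1
  refine List.map_congr_left fun p _ => ?_
  congr 1
  by_cases h : a = os6 (sp x) p.1
  · rw [if_pos h, if_pos ((os6_eq a (sp x) p.1).mpr h)]
  · rw [if_neg h, if_neg fun h' => h ((os6_eq a (sp x) p.1).mp h')]

/-- **the interaction with the clouds, over the quanta** -/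
theorem mfo6_offK (s : Bool → ℝ) (Q : Par6) (x : Xo) :
    mfo6 s (parts6 Q x) = ((offK6 Q (k6 x)).map fun p => (p.2.2 : ℝ) *
      NUSea.PLX.O.clo s (os6 (sp x) p.1) p.2.1 (ht x)).sum := by
  rw [mfo6_parts, offS6_offK6, List.map_map]
  rfl

lemma sum_idx6 (O' : Fin r → Xo) {M : Type*} [AddCommMonoid M]
    (f : Fin r → Bool × ℝ × ℤ → M) :
    ∑ c : (Σ i : Fin r, Fin (offK6 Q (k6 (O' i))).length), f c.1 ((offK6 Q (k6 (O' c.1)))[c.2.1]) =
      ∑ i, ((offK6 Q (k6 (O' i))).map (f i)).sum := by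
  rw [Fintype.sum_sigma]
  refine Finset.sum_congr rfl fun i _ => ?_
  exact Fin.sum_univ_fun_getElem (offK6 Q (k6 (O' i))) (f i)

/-- **The constant of the action of a configuration.** -/
theorem S_cfg6 {δ : ℝ} (hδ : 0 < δ) (hδ1 : δ ≤ 2 / 7) : ∃ C : ℝ, 1 ≤ C ∧
    ∀ (s : Bool → ℝ) (ε M b K : ℝ) (e : ℝ → ℝ) (η η1 : Bool → ℝ → ℝ) (Q : Par6) (r : ℕ)
      (O' : Fin r → Xo) (A : Bool → ℂ → ℂ),
      Ok6 Q → PG6 δ Q → (∀ a, 0 ≤ s a) → (∀ a, Cur (s a) ε M b e (η a)) →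
      (∀ a t, HasDerivAt (η a) (η1 a t) t) → Com M s e η η1 → 0 ≤ b → C * (b + 1) ^ 7 * ε ≤ 1 →
      0 ≤ K → (∀ t t', |s true * P t * η true t - s true * P t' * η true t'| ≤ K * |t - t'|) →
      (∀ a, Ext (δ * NUMF.l / 2) (A a)) →
      |(gas s η η1 (fun a z => FO6 Q O' a z + A a z)).S -
        ((∑ i, (mfo6 s (parts6 Q (O' i)) -
          2 * Real.pi * (wind6 (k6 (O' i)) * (s true * P (ht (O' i)) * η true (ht (O' i)))))) +
        (∫ t : ℝ, P t * (s true * (A true t).re + s false * (A false t).re)) +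
        NUCR.bil (hd (s true) (η true) (η1 true)) (hd (s true) (η true) (η1 true)) -
        ∑ a, (∫ t, Bf (s a) (NUKer.iD (η a)) (NUKer.iD (η1 a)) t *
          A a (NUAct.zt (NUKer.iD (η a)) t)).re)| ≤
        C * r * (M * ε + K) + C * (b + 1) ^ 9 * M ^ 2 * ε := by
  obtain ⟨C, hC, H⟩ := Ev.main6 hδ hδ1
  refine ⟨10 * C, by linarith, ?_⟩
  intro s ε M b K e η η1 Q r O' A hOk hQ hs hcur h1 hcom hb hsm hK hKL hA
  have hl := NUMF.l_pos
  have hε0 := (hcur true).ε0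
  have hM0 := (hcur true).M0 (hs true)
  have hsm' : C * (b + 1) ^ 7 * ε ≤ 1 := by
    refine le_trans ?_ hsm
    have : 0 ≤ C * (b + 1) ^ 7 * ε := by positivity
    nlinarith
  have hdl : 0 < δ * NUMF.l := mul_pos hδ hl
  have hExt : ∀ a, Ext (δ * NUMF.l / 2) (fun z => FO6 Q O' a z + A a z) := by
    intro a
    have h1 : Ext (δ * NUMF.l / 2) (FO6 Q O' a) :=
      ext_FO6 O' (b := 3 / 4 * (δ * NUMF.l)) (by positivity) (by linarith) hQ a (by linarith)
    obtain ⟨A1, hA1⟩ := h1.bd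
    obtain ⟨A2, hA2⟩ := (hA a).bd
    refine ⟨fun z hz => (h1.diff z hz).add ((hA a).diff z hz), A1 + A2, fun z hz => ?_⟩
    rw [add_mul]
    exact (norm_add_le _ _).trans (add_le_add (hA1 z hz) (hA2 z hz))
  have h2 := H s ε M b K 0 e η η1 (fun a z => FO6 Q O' a z + A a z) A
    (Σ i : Fin r, Fin (offK6 Q (k6 (O' i))).length)
    (fun c => (((offK6 Q (k6 (O' c.1)))[c.2.1]).2.2 : ℝ))
    (fun c => os6 (sp (O' c.1)) ((offK6 Q (k6 (O' c.1)))[c.2.1]).1)
    (fun c => ((offK6 Q (k6 (O' c.1)))[c.2.1]).2.1) (fun c => ht (O' c.1))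
    (fun c => ht (O' c.1)) hs hcur h1 hcom hb hsm' hK hKL hExt
    (fun c => offK6_off hQ _ _ (List.getElem_mem c.2.2))
    (fun c => by rw [sub_self, abs_zero]) (fun a z _ => by
      rw [sum_idx6 O' (fun i p => ((p.2.2 : ℝ) : ℂ) *
        (if a = os6 (sp (O' i)) p.1 then fq p.2.1 else fg p.2.1) (z - ht (O' i)))]
      congr 1
      unfold FO6
      exact Finset.sum_congr rfl fun i _ => fO6_os Q (O' i) a z)
  have s1 : ∑ c : (Σ i : Fin r, Fin (offK6 Q (k6 (O' i))).length),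
      (((offK6 Q (k6 (O' c.1)))[c.2.1]).2.2 : ℝ) *
      NUSea.PLX.O.clo s (os6 (sp (O' c.1)) ((offK6 Q (k6 (O' c.1)))[c.2.1]).1)
        ((offK6 Q (k6 (O' c.1)))[c.2.1]).2.1 (ht (O' c.1)) = ∑ i, mfo6 s (parts6 Q (O' i)) := by
    rw [sum_idx6 O' (fun i p => (p.2.2 : ℝ) * NUSea.PLX.O.clo s (os6 (sp (O' i)) p.1) p.2.1 (ht (O' i)))]
    exact Finset.sum_congr rfl fun i _ => (mfo6_offK s Q (O' i)).symm
  have s2 : ∑ c : (Σ i : Fin r, Fin (offK6 Q (k6 (O' i))).length),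
      (((offK6 Q (k6 (O' c.1)))[c.2.1]).2.2 : ℝ) * (wnu ((offK6 Q (k6 (O' c.1)))[c.2.1]).2.1 *
        (s true * P (ht (O' c.1)) * η true (ht (O' c.1)))) =
      ∑ i, wind6 (k6 (O' i)) * (s true * P (ht (O' i)) * η true (ht (O' i))) := by
    rw [sum_idx6 O' (fun i p => (p.2.2 : ℝ) * (wnu p.2.1 *
      (s true * P (ht (O' i)) * η true (ht (O' i)))))]
    refine Finset.sum_congr rfl fun i _ => ?_
    simp_rw [← mul_assoc ((_ : ℤ) : ℝ)]
    rw [List.sum_map_mul_right, (wnu_sum6 hOk _).1]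
  have s3 : ∑ c : (Σ i : Fin r, Fin (offK6 Q (k6 (O' i))).length),
      |(((offK6 Q (k6 (O' c.1)))[c.2.1]).2.2 : ℝ)| *
        (1 + |wnu ((offK6 Q (k6 (O' c.1)))[c.2.1]).2.1|) ≤ 10 * r := by
    rw [sum_idx6 O' (fun _ p => |(p.2.2 : ℝ)| * (1 + |wnu p.2.1|))]
    refine (Finset.sum_le_sum fun i _ => (wnu_sum6 hOk _).2).trans (le_of_eq ?_)
    rw [Finset.sum_const, Finset.card_univ, Fintype.card_fin, nsmul_eq_mul]
    ring
  rw [s1, s2] at h2
  rw [Finset.sum_sub_distrib, ← Finset.mul_sum]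
  have e3 : ∀ X a c d f g : ℝ, X - (a - c + d + f - g) = X - (a + d - c + f - g) := fun _ _ _ _ _ _ => by
    ring
  rw [e3]
  refine h2.trans ?_
  have t1 : C * (∑ c : (Σ i : Fin r, Fin (offK6 Q (k6 (O' i))).length),
      |(((offK6 Q (k6 (O' c.1)))[c.2.1]).2.2 : ℝ)| *
        (1 + |wnu ((offK6 Q (k6 (O' c.1)))[c.2.1]).2.1|)) * (M * ε + K * (1 + 0)) ≤
      C * (10 * r) * (M * ε + K * (1 + 0)) := by
    gcongr
  have t2 : C * (10 * r) * (M * ε + K * (1 + 0)) = 10 * C * r * (M * ε + K) := by ring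
  have t3 : C * (b + 1) ^ 9 * M ^ 2 * ε ≤ 10 * C * (b + 1) ^ 9 * M ^ 2 * ε := by
    have : 0 ≤ C * (b + 1) ^ 9 * M ^ 2 * ε := by positivity
    nlinarith
  linarith

end NUSea.PLX.H0

end
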