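import Pool.Agent.PHK.H0.DatC
import Pool.Agent.PLX.IST.SrcI

/-!
# The data of the six kinds with a source

`addS I ν τ ψ` (PLX/IST/SrcI): the extra data with the source `(ν, τ)` and the remainder `ψ`.

* `wO_addS6`, `IOk6.addS`, `fld_addS6`, `pot_addS6`: remainder, hypotheses, equation, one body potential;
* `W0_src6`: the weight with a source is the weight of the data `addS I ν τ ψ`.
-/

set_option autoImplicit false
set_option linter.unusedSectionVars false

open MeasureTheory Finset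

namespace NUSea.PLX.H0

open NUMF NUKer NUAct PHK
open NUO (Xo)
open NUR2 (Cfg)

noncomputable section

variable [Sea]

variable {I : Inp} {P : Par6} {r : ℕ} {O : Fin r → Xo} {dl ε M b : ℝ} {e : ℝ → ℝ}
  {s E : ℝ} {ν : Bool → ℝ → ℝ} {τ : ℝ → ℝ} {ψ : Bool → ℝ → ℝ}

theorem wO_addS6 (h : IOk6 dl ε M b e I P) (hs : SrcOk s ν τ) (a : Bool) (t : ℝ) :
    wO (addS I ν τ ψ) a t = wO I a t + ψ a t := by
  obtain ⟨C, hC⟩ := h.νb a
  have i1 : Integrable fun u => I.ν a u * V (t - u) := by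
    have h1 : Integrable fun u => V (t - u) := V_integral.1.comp_sub_left t
    exact (h1.mul_bdd (c := C) (h.νc a).aestronglyMeasurable (ae_of_all _ hC)).congr
      (ae_of_all _ fun u => mul_comm _ _)
  have e1 : Vn (addS I ν τ ψ) a t = Vn I a t + ∫ u, ν a u * V (t - u) := by
    unfold Vn
    rw [← integral_add i1 ((hs.dν a).V_in t)]
    refine integral_congr_ae (ae_of_all _ fun u => ?_)
    show (I.ν a u + ν a u) * V (t - u) = _
    ring
  have e2 : NUC43.lgp (addS I ν τ ψ).τD t = NUC43.lgp I.τD t + NUC43.lgp τ t := by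
    unfold NUC43.lgp
    rw [← integral_add (tau_logg_int h.τi h.τ1 t) (hs.dτ.lg_in t)]
    refine integral_congr_ae (ae_of_all _ fun u => ?_)
    show (I.τD u + τ u) * Real.log (g (t - u)) = _
    ring
  unfold wO
  rw [e1, e2]
  show (I.A a (NUAct.zt (NUKer.iD (I.η a)) t)).re + (I.B a t + (srcP ν τ a t + ψ a t)) - _ - _ = _
  unfold srcP
  ring

theorem wO_addS6' (h : IOk6 dl ε M b e I P) (hs : SrcOk s ν τ) (a : Bool) :
    wO (addS I ν τ ψ) a = fun t => wO I a t + ψ a t := funext fun t => wO_addS6 h hs a t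

/-- **the extra data with a source are admissible** -/
theorem IOk6.addS (h : IOk6 dl ε M b e I P) (hs : SrcOk s ν τ) (hψ : RemOk s E ψ) :
    IOk6 dl ε M b e (addS I ν τ ψ) P where
  s0 := h.s0
  b0 := h.b0
  cur := h.cur
  der := h.der
  com := h.com
  ε1 := h.ε1
  ok := h.ok
  pg := h.pg
  d1 := h.d1
  d2 := h.d2
  Ae := h.Ae
  Bc a := (h.Bc a).add ((hs.cont a).add (hψ.c a).continuous)
  Bb a := by
    obtain ⟨C, hC⟩ := h.Bb a
    refine ⟨C + ((12 + ∫ u, |V u|) * s + s), fun t => ?_⟩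
    show |I.B a t + (srcP ν τ a t + ψ a t)| ≤ _
    have h1 := hC t
    have h2 := hs.le a t
    have h3 := hψ.b a t
    have h4 := abs_add_le (I.B a t) (srcP ν τ a t + ψ a t)
    have h5 := abs_add_le (srcP ν τ a t) (ψ a t)
    linarith
  νc a := (h.νc a).add (hs.dν a).c
  νi a := (h.νi a).add (hs.dν a).int
  νb a := by
    obtain ⟨C, hC⟩ := h.νb a
    refine ⟨C + s, fun t => ?_⟩
    show |I.ν a t + ν a t| ≤ _
    have h1 := hC t
    have h2 := (hs.dν a).le t
    have h4 := abs_add_le (I.ν a t) (ν a t)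
    linarith
  τi := h.τi.add hs.dτ.int
  τ1 := by
    refine (h.τ1.add hs.dτ.mul_id).congr (ae_of_all _ fun x => ?_)
    show I.τD x * x + τ x * x = (I.τD x + τ x) * x
    ring
  wc a := by
    rw [wO_addS6' h hs]
    exact (h.wc a).add (hψ.c a)
  wb a := by
    obtain ⟨C, hC⟩ := h.wb a
    refine ⟨C + s, fun t => ?_⟩
    rw [wO_addS6 h hs]
    have h1 := hC t
    have h3 := hψ.b a t
    have h4 := abs_add_le (wO I a t) (ψ a t)
    linarith

/-- **the equation of the data with a source** -/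
theorem fld_addS6 {p n : ℕ} (h : IOk6 dl ε M b e I P) (hf : Fld (datO6 I P O) p n)
    (hs : SrcOk s ν τ) (hψ : RemOk s E ψ) : Fld (datO6 (addS I ν τ ψ) P O) p n := by
  have e1 : (datO6 (addS I ν τ ψ) P O).τ = fun t => (datO6 I P O).τ t + τ t := by
    funext t
    show tauC6 P O t + (I.τD t + τ t) = tauC6 P O t + I.τD t + τ t
    ring
  refine ⟨?_, ?_, ?_, (h.addS hs hψ).lin_eq⟩
  · rw [e1]
    exact hf.τi.add hs.dτ.int
  · rw [e1]
    refine (hf.τ1.add hs.dτ.mul_id).congr (ae_of_all _ fun x => ?_)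
    simp only [Pi.add_apply]
    ring
  · rw [e1, integral_add hf.τi hs.dτ.int, hf.τ0, hs.τ0, add_zero]
    rfl

/-- the one body potential with a source -/
theorem pot_addS6 (ν : Bool → ℝ → ℝ) (τ : ℝ → ℝ) (ψ : Bool → ℝ → ℝ) (a : Bool) (t : ℝ) :
    (datO6 (addS I ν τ ψ) P O).pot a t = (datO6 I P O).pot a t + (srcP ν τ a t + ψ a t) := by
  unfold Dat.pot
  show _ + _ + (I.B a t + (srcP ν τ a t + ψ a t)) = _ + _ + I.B a t + _
  rw [← add_assoc]
  rfl

/-- **the weight with a source** -/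
theorem W0_src6 {p n : ℕ} (aX aY cf : ℝ → ℝ) (x : Cfg p n) :
    W0 (datO6 (addS I ν τ ψ) P O) p n (fun t => aX t * Real.exp (srcP ν τ true t + ψ true t))
      (fun t => aY t * Real.exp (srcP ν τ false t + ψ false t)) cf x =
    W0 (datO6 I P O) p n aX aY cf x *
      Real.exp (∑ i, (srcP ν τ true (x.1 i) + ψ true (x.1 i)) +
        ∑ i, (srcP ν τ false (x.2 i) + ψ false (x.2 i))) := by
  rw [← W0_src (datO6 I P O) aX aY cf (fun t => srcP ν τ true t + ψ true t)
    (fun t => srcP ν τ false t + ψ false t)]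
  rfl

end

end NUSea.PLX.H0
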