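import Pool.Agent.PHK.H0.GasC
import Pool.Agent.PHK.H0.Src6

/-!
# The data of the gas with a source

* `plt_ge`: the plateau is above `exp (- 5/2 |t|)`;
* **`DatC6.addS`**: data of the gas and a source of size `s` at the height `0`: data of the gas for
  `addS I ν τ 0`, the one body factors are multiplied by `exp (srcP ν τ a)`; the places do not change.
-/

set_option autoImplicit false

noncomputable section

open MeasureTheory Finset
open scoped ENNReal

namespace NUSea.PLX.H0

open NUO (Xo ht TW excS)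
open PHK NUStabP NUDispW

/-- the plateau at the height `0` -/
theorem plt_ge {T' : ℝ} (hT : 0 ≤ T') (t : ℝ) : Real.exp (-(5 / 2 * |t|)) ≤ NUH0.plt T' t := by
  unfold NUH0.plt
  refine Real.exp_le_exp.2 ?_
  have h1 : max (|t| - T') 0 ≤ |t| := max_le (by linarith) (abs_nonneg t)
  linarith

/-- the remainder zero -/
def ψ0 : Bool → ℝ → ℝ := fun _ _ => 0

lemma remOk_zero {s : ℝ} (hs : 0 ≤ s) : RemOk s 0 ψ0 where
  c _ := contDiff_const
  b _ _ := by
    rw [show ψ0 _ _ = 0 from rfl, abs_zero]
    exact hs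
  e a T _ := by
    have h1 : ∀ t, deriv (ψ0 a) t = 0 := fun t => by
      show deriv (fun _ => (0 : ℝ)) t = 0
      exact deriv_const t 0
    simp_rw [h1]
    simp [ψ0]

variable [Sea]

section

variable {ep e1 κ CB ϑ kb : ℝ} {k m : ℕ} {I : Inp} {P : Par6} {r : ℕ} {O : Fin r → Xo}
  {G : ℕ} {g : Fin G → ℝ} {p n : ℕ} {aX aY cf B1 : ℝ → ℝ} {T1 D q S : ℝ}
  {s : ℝ} {ν : Bool → ℝ → ℝ} {τ : ℝ → ℝ}

/-- the one body factors with a source -/
theorem Shl.addS (h : Shl (datO6 I P O) aX aY cf B1 D q) (hs : SrcOk s ν τ) :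
    Shl (datO6 (addS I ν τ ψ0) P O) (fun t => aX t * Real.exp (srcP ν τ true t))
      (fun t => aY t * Real.exp (srcP ν τ false t)) cf B1 D q where
  mX := h.mX.mul (Real.continuous_exp.comp (hs.cont true)).measurable
  mY := h.mY.mul (Real.continuous_exp.comp (hs.cont false)).measurable
  mc := h.mc
  mB := h.mB
  X0 t := mul_nonneg (h.X0 t) (Real.exp_pos _).le
  Y0 t := mul_nonneg (h.Y0 t) (Real.exp_pos _).le
  c0 := h.c0
  B0 := h.B0
  D0 := h.D0
  q0 := h.q0
  cB := h.cB
  cD := h.cD
  leX t := by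
    rw [pot_addS6, show ψ0 true t = 0 from rfl, add_zero, Real.exp_add, mul_right_comm]
    exact mul_le_mul_of_nonneg_right (h.leX t) (Real.exp_pos _).le
  leY t := by
    rw [pot_addS6, show ψ0 false t = 0 from rfl, add_zero, Real.exp_add, mul_right_comm]
    exact mul_le_mul_of_nonneg_right (h.leY t) (Real.exp_pos _).le

/-- **the data of the gas with a source** -/
theorem DatC6.addS (h : DatC6 ep e1 κ CB ϑ kb k m I P O g p n aX aY cf B1 T1 D q S)
    (hT : 0 ≤ TW ep e1 m) (hs : SrcOk s ν τ) :
    DatC6 ep e1 κ (CB + s) ϑ kb k m (addS I ν τ ψ0) P O g p n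
      (fun t => aX t * Real.exp (srcP ν τ true t)) (fun t => aY t * Real.exp (srcP ν τ false t))
      cf B1 T1 D q S := by
  have s0 := hs.s0
  obtain ⟨dl, ε, M, e, hI, h1, h2, h3⟩ := h.ok
  have hw : ∀ a, wO (H0.addS I ν τ ψ0) a = wO I a := by
    intro a
    funext t
    rw [wO_addS6 hI hs]
    exact add_zero _
  have hR := remOk_zero s0
  exact
    { s1 := h.s1
      s2 := h.s2
      pk := h.pk
      nk := h.nk
      rk := h.rk
      ok := ⟨dl, ε, M, e, hI.addS hs hR, h1, h2, h3⟩
      fld := fld_addS6 hI h.fld hs hR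
      shl := h.shl.addS hs
      q1 := h.q1
      tw := h.tw
      DS := h.DS
      gs := h.gs
      ν0 := fun a t => by
        have b1 := h.ν0 a t
        have b2 := (hs.dν a).b t
        have b3 := plt_ge hT t
        have b4 : 0 ≤ ∑ j, Real.exp (-(5 / 2 * |t - g j|)) :=
          Finset.sum_nonneg fun _ _ => (Real.exp_pos _).le
        show |I.ν a t + ν a t| ≤ _
        refine (abs_add_le _ _).trans ?_
        have b5 := mul_le_mul_of_nonneg_left b3 s0
        have b6 := mul_nonneg s0 b4
        linarith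
      w0 := fun a t => by
        rw [hw]
        have := h.w0 a t
        linarith
      w1 := fun a T hT => by
        rw [hw]
        have := h.w1 a T hT
        linarith }

/-- the exponent of the right side with a source -/
theorem confC_addS6 {K kap : ℝ} (hE : (datO6 (addS I ν τ ψ0) P O).En = (datO6 I P O).En + D) :
    confC6 ep e1 m (addS I ν τ ψ0) P p n K kap O T1 = confC6 ep e1 m I P p n K kap O T1 + D := by
  unfold confC6
  rw [hE]
  show MFs I.s p n + _ + _ + _ + _ = _
  ring

end

end NUSea.PLX.H0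

end
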