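import Pool.Agent.PHK.H0.EnS6
import Pool.Agent.PHK.H0.GasS6

/-!
# The cross terms of a source with the data of the six kinds

* **`crS_le6`**: the cross terms are at most `K s (1 + A + W + r)`, `A` a bound of the masses of the extra
  densities, `W` a bound of `wO`; `srcEn_le`: the energy of a source is at most `K s ^ 2`.
-/

set_option autoImplicit false
set_option linter.unusedSectionVars false
set_option linter.unusedVariables false

noncomputable section

open MeasureTheory Finset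
open scoped ENNReal

namespace NUSea.PLX.H0

open NUMF NUKer NUAct PHK
open NUO (Xo ht)

/-- a density of finite mass against a bounded function -/
lemma int_le_mass {f w : ℝ → ℝ} {B : ℝ} (hf : Integrable f) (hB : 0 ≤ B) (hw : ∀ t, |w t| ≤ B) :
    |∫ t, f t * w t| ≤ (∫ t, |f t|) * B := by
  rw [← Real.norm_eq_abs, ← integral_mul_const]
  refine norm_integral_le_of_norm_le (hf.abs.mul_const B) (ae_of_all _ fun t => ?_)
  rw [Real.norm_eq_abs, abs_mul]
  exact mul_le_mul_of_nonneg_left (hw t) (abs_nonneg _)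

/-- the energy of a source -/
theorem srcEn_le : ∃ K : ℝ, 0 ≤ K ∧ ∀ {s : ℝ} {ν : Bool → ℝ → ℝ} {τ : ℝ → ℝ}, SrcOk s ν τ →
    |srcEn ν τ| ≤ K * s ^ 2 := by
  have hV : 0 ≤ ∫ u, |V u| := integral_nonneg fun _ => abs_nonneg _
  refine ⟨6 + ∫ u, |V u|, by positivity, fun {s ν τ} hs => ?_⟩
  have s0 := hs.s0
  have h1 : |∫ t, τ t * NUC43.lgp τ t| ≤ 4 / 5 * s * (12 * s) := by
    refine (int_le_mass hs.dτ.int (by positivity) (hs.dτ.lgp_le hs.τ0)).trans ?_
    exact mul_le_mul_of_nonneg_right hs.dτ.abs_le (by positivity)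
  have h2 : ∀ a, |∫ t, ν a t * ∫ u, ν a u * V (t - u)| ≤ 4 / 5 * s * (s * ∫ u, |V u|) := by
    intro a
    refine (int_le_mass (hs.dν a).int (by positivity) (hs.dν a).Vf_bc.2).trans ?_
    exact mul_le_mul_of_nonneg_right (hs.dν a).abs_le (by positivity)
  have k1 := h2 true
  have k2 := h2 false
  unfold srcEn
  rw [Fintype.sum_bool]
  have e : 0 ≤ s * s * ∫ u, |V u| := by positivity
  have e2 : 0 ≤ s * s := by positivity
  rw [abs_le] at h1 k1 k2 ⊢
  constructor <;> nlinarith [h1.1, h1.2, k1.1, k1.2, k2.1, k2.2]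

variable [Sea]

/-- **the cross terms of a source** -/
theorem crS_le6 {P : Par6} (hP : Ok6 P) : ∃ K : ℝ, 0 ≤ K ∧
    ∀ {r : ℕ} {I : Inp} {O : Fin r → Xo} {dl ε M b : ℝ} {e : ℝ → ℝ}, IOk6 dl ε M b e I P →
    M * ε ≤ 1 → ∀ {A W : ℝ}, (∀ a, ∫ t, |I.ν a t| ≤ A) → (∫ t, |I.τD t| ≤ A) →
    (∀ a t, |wO I a t| ≤ W) → ∀ {s : ℝ} {ν : Bool → ℝ → ℝ} {τ : ℝ → ℝ}, SrcOk s ν τ →
    |crS (datO6 I P O) ν τ ψ0| ≤ K * s * (1 + A + W + r) := by
  obtain ⟨Mm, hMm, Hm⟩ := muC_bd6 hP
  obtain ⟨K1, hK1, H1⟩ := exists_phi_le6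
  have hV : 0 ≤ ∫ u, |V u| := integral_nonneg fun _ => abs_nonneg _
  obtain ⟨Vt, hVt⟩ : ∃ Vt, Vt = ∫ u, |V u| := ⟨_, rfl⟩
  rw [← hVt] at hV
  refine ⟨12 * (Mm + 1) + 2 * (Vt * (Mm + 1)) + 2 * (K1 + 1), by positivity, ?_⟩
  intro r I O dl ε M b e h hMε A W hν hτ hw s ν τ hs
  have s0 := hs.s0
  have hr0 : (0 : ℝ) ≤ r := Nat.cast_nonneg r
  have hA0 : 0 ≤ A := (integral_nonneg fun _ => abs_nonneg _).trans hτ
  have hW0 : 0 ≤ W := (abs_nonneg _).trans (hw true 0)
  have hR : Reg (datO6 I P O) := h.reg'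
  have hdl0 := h.dl0
  have hdl1 : dl ≤ 1 := by
    have := h.d2
    linarith
  -- the splitting
  have a1 : |∫ t, (datO6 I P O).τ t * NUC43.lgp τ t| ≤ 12 * s * (Mm * r + A) := by
    have dC := dn_tauC6 hP O
    have hwI : Wt I.τD := ⟨h.τi, h.τ1⟩
    have i1 : Integrable fun t => tauC6 P O t * NUC43.lgp τ t := NUC43.lg_out dC hs.dτ.dn
    have i2 : Integrable fun t => I.τD t * NUC43.lgp τ t := lgp_out hwI hs.dτ.wt
    have e1 : ∫ t, (datO6 I P O).τ t * NUC43.lgp τ t =
        (∫ t, tauC6 P O t * NUC43.lgp τ t) + ∫ t, I.τD t * NUC43.lgp τ t := by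
      rw [← integral_add i1 i2]
      refine integral_congr_ae (ae_of_all _ fun t => ?_)
      show (tauC6 P O t + I.τD t) * _ = _
      ring
    have b1 := loc_le (x := fun i => ht (O i)) (c := 5 / 2) (d := 0) (A := Mm) (B := 12 * s) le_rfl
      (by norm_num) hMm (f := tauC6 P O) (w := NUC43.lgp τ)
      (fun t => (Hm (Fin r) O true t).2.trans_eq (by
        congr 1
        exact Finset.sum_congr rfl fun i _ => by rw [neg_mul])) (fun t => by
        rw [zero_mul, neg_zero, Real.exp_zero, mul_one]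
        exact hs.dτ.lgp_le hs.τ0 t)
    have b2 := int_le_mass h.τi (by positivity) (hs.dτ.lgp_le hs.τ0)
    simp only [zero_mul, neg_zero, Real.exp_zero, Finset.sum_const, Finset.card_univ,
      Fintype.card_fin, nsmul_eq_mul, mul_one, sub_zero] at b1
    have h4 : (2 : ℝ) / (5 / 2) = 4 / 5 := by norm_num
    rw [h4] at b1
    rw [e1]
    refine (abs_add_le _ _).trans ?_
    have h5 : (∫ t, |I.τD t|) * (12 * s) ≤ A * (12 * s) :=
      mul_le_mul_of_nonneg_right hτ (by positivity)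
    have h6 : 0 ≤ Mm * s * r := by positivity
    linarith
  -- the densities
  have a2 : ∀ a, |∫ t, (datO6 I P O).μ a t * ∫ u, ν a u * V (t - u)| ≤ s * Vt * (Mm * r + A) := by
    intro a
    obtain ⟨cw, bw⟩ := (hs.dν a).Vf_bc
    have dM := dn_muC6 hP O a
    have i1 : Integrable fun t => muC6 P O a t * ∫ u, ν a u * V (t - u) := int_mul_bc dM.int cw bw
    have i2 : Integrable fun t => I.ν a t * ∫ u, ν a u * V (t - u) := int_mul_bc (h.νi a) cw bw
    have e1 : ∫ t, (datO6 I P O).μ a t * (∫ u, ν a u * V (t - u)) =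
        (∫ t, muC6 P O a t * ∫ u, ν a u * V (t - u)) + ∫ t, I.ν a t * ∫ u, ν a u * V (t - u) := by
      rw [← integral_add i1 i2]
      refine integral_congr_ae (ae_of_all _ fun t => ?_)
      show (muC6 P O a t + I.ν a t) * _ = _
      ring
    rw [← hVt] at bw
    have b1 := loc_le (x := fun i => ht (O i)) (c := 5 / 2) (d := 0) (A := Mm) (B := s * Vt) le_rfl
      (by norm_num) hMm (f := muC6 P O a) (w := fun t => ∫ u, ν a u * V (t - u))
      (fun t => (Hm (Fin r) O a t).1.trans_eq (by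
        congr 1
        exact Finset.sum_congr rfl fun i _ => by rw [neg_mul])) (fun t => by
        rw [zero_mul, neg_zero, Real.exp_zero, mul_one]
        exact bw t)
    have b2 := int_le_mass (h.νi a) (by positivity) bw
    simp only [zero_mul, neg_zero, Real.exp_zero, Finset.sum_const, Finset.card_univ,
      Fintype.card_fin, nsmul_eq_mul, mul_one, sub_zero] at b1
    have h4 : (2 : ℝ) / (5 / 2) = 4 / 5 := by norm_num
    rw [h4] at b1
    rw [e1]
    refine (abs_add_le _ _).trans ?_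
    have h5 : (∫ t, |I.ν a t|) * (s * Vt) ≤ A * (s * Vt) :=
      mul_le_mul_of_nonneg_right (hν a) (by positivity)
    have h6 : 0 ≤ Mm * (s * Vt) * r := by positivity
    linarith
  -- the remainder of the data
  have a3 : ∀ a, |∫ t, ν a t * (datO6 I P O).φ a t| ≤ s * (K1 * (1 + r) + W) := by
    intro a
    have hφ : ∀ t, |(datO6 I P O).φ a t| ≤ K1 * (1 + r) + W := by
      intro t
      have h1 := H1 (O := O) h a t
      have h2 := hw a t
      have h3 : K1 * (M * ε + dl * r) ≤ K1 * (1 + 1 * r) := by gcongr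
      rw [one_mul] at h3
      show |phiO6 I P O a t| ≤ _
      linarith
    refine (int_le_mass (hs.dν a).int (by positivity) hφ).trans ?_
    have h1 : (∫ t, |ν a t|) ≤ s := (hs.dν a).abs_le.trans (by linarith)
    exact mul_le_mul_of_nonneg_right h1 (by positivity)
  have e1 : crS (datO6 I P O) ν τ ψ0 = (∫ t, (datO6 I P O).τ t * NUC43.lgp τ t) +
      (((∫ t, (datO6 I P O).μ true t * ∫ u, ν true u * V (t - u)) +
        (∫ t, ν true t * (datO6 I P O).φ true t)) +
      ((∫ t, (datO6 I P O).μ false t * ∫ u, ν false u * V (t - u)) +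
        (∫ t, ν false t * (datO6 I P O).φ false t))) := by
    unfold crS
    rw [Fintype.sum_bool]
    simp [ψ0]
  rw [e1]
  refine (abs_add_le _ _).trans ?_
  refine (add_le_add a1 ((abs_add_le _ _).trans (add_le_add ((abs_add_le _ _).trans
    (add_le_add (a2 true) (a3 true))) ((abs_add_le _ _).trans (add_le_add (a2 false) (a3 false)))))).trans ?_
  obtain ⟨Q, hQ⟩ : ∃ Q, Q = 1 + A + W + r := ⟨_, rfl⟩
  rw [← hQ]
  have q1 : Mm * r + A ≤ (Mm + 1) * Q := by
    rw [hQ]
    have := mul_nonneg hMm hA0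
    have := mul_nonneg hMm hW0
    nlinarith
  have q2 : K1 * (1 + r) + W ≤ (K1 + 1) * Q := by
    rw [hQ]
    have k0 : 0 ≤ K1 := by linarith
    have := mul_nonneg k0 hA0
    have := mul_nonneg k0 hW0
    nlinarith
  have g1 : 12 * s * (Mm * r + A) ≤ 12 * s * ((Mm + 1) * Q) :=
    mul_le_mul_of_nonneg_left q1 (by positivity)
  have g2 : s * Vt * (Mm * r + A) ≤ s * Vt * ((Mm + 1) * Q) :=
    mul_le_mul_of_nonneg_left q1 (by positivity)
  have g3 : s * (K1 * (1 + r) + W) ≤ s * ((K1 + 1) * Q) := mul_le_mul_of_nonneg_left q2 s0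
  calc _ ≤ 12 * s * ((Mm + 1) * Q) + (s * Vt * ((Mm + 1) * Q) + s * ((K1 + 1) * Q) +
        (s * Vt * ((Mm + 1) * Q) + s * ((K1 + 1) * Q))) := by
        linarith
    _ = _ := by ring

end NUSea.PLX.H0

end
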