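import Pool.Agent.PHK.H0.Src6
import Pool.Agent.PHK.H0.DatNC
import Pool.Agent.PLX.NUSea.H0.En

/-!
# The energy of the data of the six kinds with a source

* **`En_addS6`**: `En` of the data with a source `=` `En` of the data `+` energy of the source `+` linear
  term `+` cross terms;
* `crS`: the cross terms.
-/

set_option autoImplicit false
set_option linter.unusedSectionVars false

open MeasureTheory Finset
open scoped ENNReal

namespace NUSea.PLX.H0

open NUMF NUKer NUAct PHK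
open NUO (Xo)

noncomputable section

variable [Sea]

/-- **the cross terms** -/
def crS (X : Dat) (ν : Bool → ℝ → ℝ) (τ : ℝ → ℝ) (ψ : Bool → ℝ → ℝ) : ℝ :=
  (∫ t, X.τ t * NUC43.lgp τ t) + ∑ a, ((∫ t, X.μ a t * ∫ u, ν a u * V (t - u)) +
    (∫ t, ν a t * X.φ a t) + ∫ t, (X.μ a t + ν a t) * ψ a t)

section

variable {s s' E : ℝ} {ν : Bool → ℝ → ℝ} {τ : ℝ → ℝ} {ψ : Bool → ℝ → ℝ}

/-- **the energy of the sum of two data** -/
theorem En_sum {X Y : Dat} {p n : ℕ} (hR : Reg X) (hf' : Fld X p n) (hs : SrcOk s ν τ)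
    (hψ : RemOk s' E ψ) (e0 : Y.gas.S = X.gas.S) (eρ : Y.ρ = X.ρ)
    (eτ : Y.τ = fun t => X.τ t + τ t) (eμ : ∀ a, Y.μ a = fun t => X.μ a t + ν a t)
    (eE : ∀ a t, Y.E a t = X.E a t + (srcP ν τ a t + ψ a t))
    (eφ : ∀ a t, Y.φ a t = X.φ a t + ψ a t) :
    Y.En = X.En + srcEn ν τ +
      (∑ a, ∫ t, X.ρ a t * (srcP ν τ a t + ψ a t)) + crS X ν τ ψ := by
  have hwX : Wt X.τ := ⟨hf'.τi, hf'.τ1⟩
  have hwτ := hs.dτ.wt
  have eG : ∀ t, Y.Gt t = X.Gt t + NUC43.lgp τ t := by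
    intro t
    have h1 := lgp_add hwX hwτ t
    show NUC43.lgp Y.τ t = NUC43.lgp X.τ t + NUC43.lgp τ t
    rw [eτ]
    exact h1
  have eV : ∀ a t, Y.Vm a t = X.Vm a t + ∫ u, ν a u * V (t - u) := by
    intro a t
    obtain ⟨C, hC⟩ := hR.μb a
    have i1 : Integrable fun u => X.μ a u * V (t - u) := by
      have h1 : Integrable fun u => V (t - u) := V_integral.1.comp_sub_left t
      exact (h1.mul_bdd (c := C) (hR.μc a).aestronglyMeasurable (ae_of_all _ hC)).congr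
        (ae_of_all _ fun u => mul_comm _ _)
    unfold Dat.Vm
    rw [← integral_add i1 ((hs.dν a).V_in t), eμ]
    exact integral_congr_ae (ae_of_all _ fun u => by ring)
  -- the splitting
  have p1 : ∫ t, Y.τ t * Y.Gt t = (∫ t, X.τ t * X.Gt t) + (∫ t, τ t * NUC43.lgp τ t) +
      2 * ∫ t, X.τ t * NUC43.lgp τ t := by
    have i1 : Integrable fun t => X.τ t * X.Gt t := lgp_out hwX hwX
    have i2 := lgp_out hwX hwτ
    have i3 : Integrable fun t => τ t * X.Gt t := lgp_out hwτ hwX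
    have i4 := lgp_out hwτ hwτ
    have s1 : ∫ t, τ t * X.Gt t = ∫ t, X.τ t * NUC43.lgp τ t := lgp_sym hwτ hwX
    have e1 : ∀ t, Y.τ t * Y.Gt t = (X.τ t * X.Gt t + τ t * NUC43.lgp τ t) +
        (X.τ t * NUC43.lgp τ t + τ t * X.Gt t) := by
      intro t
      rw [eτ, eG]
      ring
    simp_rw [e1]
    rw [int4 i1 i4 i2 i3, s1]
    ring
  -- the densities
  have p2 : ∀ a, 1 / 2 * (∫ t, Y.μ a t * Y.Vm a t) + (∫ t, Y.ρ a t * Y.E a t) +
      (∫ t, Y.μ a t * Y.φ a t) = (1 / 2 * (∫ t, X.μ a t * X.Vm a t) + (∫ t, X.ρ a t * X.E a t) +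
      ∫ t, X.μ a t * X.φ a t) + 1 / 2 * (∫ t, ν a t * ∫ u, ν a u * V (t - u)) +
      (∫ t, X.ρ a t * (srcP ν τ a t + ψ a t)) + ((∫ t, X.μ a t * ∫ u, ν a u * V (t - u)) +
      (∫ t, ν a t * X.φ a t) + ∫ t, (X.μ a t + ν a t) * ψ a t) := by
    intro a
    obtain ⟨Cμ, hCμ⟩ := hR.μb a
    obtain ⟨Cφ, hCφ⟩ := hR.φb a
    obtain ⟨CE, hCE⟩ := hR.Eb a
    have dν := hs.dν a
    obtain ⟨cV, bV⟩ := conv_bc (hR.μc a) hCμ
    obtain ⟨cν, bν⟩ := dν.Vf_bc
    have cψ := (hψ.c a).continuous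
    have bψ := hψ.b a
    have i1 : Integrable fun t => X.μ a t * X.Vm a t := int_mul_bc (hR.μi a) cV bV
    have i2 : Integrable fun t => X.μ a t * ∫ u, ν a u * V (t - u) := int_mul_bc (hR.μi a) cν bν
    have i3 : Integrable fun t => ν a t * X.Vm a t := int_mul_bc dν.int cV bV
    have i4 : Integrable fun t => ν a t * ∫ u, ν a u * V (t - u) := int_mul_bc dν.int cν bν
    have s1 : ∫ t, ν a t * X.Vm a t = ∫ t, X.μ a t * ∫ u, ν a u * V (t - u) :=
      conv_symm dν.int (hR.μc a) hCμ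
    have q1 : ∫ t, Y.μ a t * Y.Vm a t = (∫ t, X.μ a t * X.Vm a t) +
        (∫ t, ν a t * ∫ u, ν a u * V (t - u)) +
        2 * ∫ t, X.μ a t * ∫ u, ν a u * V (t - u) := by
      have e1 : ∀ t, Y.μ a t * Y.Vm a t = (X.μ a t * X.Vm a t +
          ν a t * ∫ u, ν a u * V (t - u)) + ((X.μ a t * ∫ u, ν a u * V (t - u)) +
          ν a t * X.Vm a t) := by
        intro t
        rw [eμ, eV]
        ring
      simp_rw [e1]
      rw [int4 i1 i4 i2 i3, s1]
      ring
    have j1 : Integrable fun t => X.ρ a t * X.E a t := int_mul_bc (ρ_int X a) (hR.Ec a) hCE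
    have j2 : Integrable fun t => X.ρ a t * (srcP ν τ a t + ψ a t) := by
      refine int_mul_bc (ρ_int X a) ((hs.cont a).add cψ) (M := (12 + ∫ u, |V u|) * s + s') fun t => ?_
      exact (abs_add_le _ _).trans (add_le_add (hs.le a t) (bψ t))
    have q2 : ∫ t, Y.ρ a t * Y.E a t = (∫ t, X.ρ a t * X.E a t) +
        ∫ t, X.ρ a t * (srcP ν τ a t + ψ a t) := by
      rw [← integral_add j1 j2]
      refine integral_congr_ae (ae_of_all _ fun t => ?_)
      simp only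
      rw [eρ, eE]
      ring
    have k1 : Integrable fun t => X.μ a t * X.φ a t := int_mul_bc (hR.μi a) (hR.φc a) hCφ
    have k2 : Integrable fun t => ν a t * X.φ a t := int_mul_bc dν.int (hR.φc a) hCφ
    have k3 : Integrable fun t => (X.μ a t + ν a t) * ψ a t :=
      int_mul_bc ((hR.μi a).add dν.int) cψ bψ
    have q3 : ∫ t, Y.μ a t * Y.φ a t = (∫ t, X.μ a t * X.φ a t) + (∫ t, ν a t * X.φ a t) +
        ∫ t, (X.μ a t + ν a t) * ψ a t := by
      rw [← int3 k1 k2 k3]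
      refine integral_congr_ae (ae_of_all _ fun t => ?_)
      simp only
      rw [eμ, eφ]
      ring
    rw [q1, q2, q3]
    ring
  unfold Dat.En crS srcEn
  rw [e0, p1]
  simp_rw [p2]
  simp only [Finset.sum_add_distrib]
  ring

variable {I : Inp} {P : Par6} {r : ℕ} {O : Fin r → Xo} {dl ε M b : ℝ} {e : ℝ → ℝ}

/-- **the energy of the data with a source** -/
theorem En_addS6 (h : IOk6 dl ε M b e I P) {p n : ℕ} (hf : Fld (datO6 I P O) p n)
    (hs : SrcOk s ν τ) (hψ : RemOk s' E ψ) :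
    (datO6 (addS I ν τ ψ) P O).En = (datO6 I P O).En + srcEn ν τ +
      (∑ a, ∫ t, (datO6 I P O).ρ a t * (srcP ν τ a t + ψ a t)) + crS (datO6 I P O) ν τ ψ := by
  refine En_sum (Y := datO6 (addS I ν τ ψ) P O) h.reg' hf hs hψ rfl rfl ?_ ?_ ?_ ?_
  · funext t
    show tauC6 P O t + (I.τD t + τ t) = tauC6 P O t + I.τD t + τ t
    ring
  · intro a
    funext t
    show muC6 P O a t + (I.ν a t + ν a t) = muC6 P O a t + I.ν a t + ν a t
    ring
  · intro a t
    rfl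
  · intro a t
    show phiO6 (addS I ν τ ψ) P O a t = phiO6 I P O a t + ψ a t
    unfold phiO6
    rw [wO_addS6 h hs, ← add_assoc]
    rfl

end

end

end NUSea.PLX.H0
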