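import Pool.Agent.PHK.H0.SharpC
import Pool.Agent.PHK.H0.DatNC
import Pool.Agent.NUO.InstG

/-!
# The instance of a configuration of the six kinds from `DatC6`, general sea
-/

set_option autoImplicit false

noncomputable section

open MeasureTheory Finset
open scoped ENNReal

namespace NUSea.PLX.H0

open NUO (Xo ht TW excS excS_nonneg excS_ge)
open PHK NUStabP NUDispW NUEnW
open NUH0 (plt plt_nonneg qc)

variable [Sea]

lemma bmaj_hts {r G : ℕ} (O : Fin r → Xo) (g : Fin G → ℝ) (c t : ℝ) :
    bmaj Finset.univ (hts O g) c t =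
      bmaj Finset.univ (fun i => ht (O i)) c t + bmaj Finset.univ g c t := by
  unfold bmaj hts
  rw [Fin.sum_univ_add]
  simp only [Fin.append_left, Fin.append_right]

/-- **the instance of a configuration** -/
theorem instC6 {P : Par6} (hP : Ok6 P) : InstC6 P := by
  intro kb hkb G ep hep hep1 e1 he he1 k κ CB hκ hCB
  obtain ⟨Kg, hKg, Hgeo⟩ := exists_geo6
  obtain ⟨Kφ, hKφ, Hφ⟩ := exists_phi_le6
  obtain ⟨KN, hKN, HN⟩ := exists_NT6
  obtain ⟨Mm, hMm, Hm⟩ := muC_bd6 hP
  obtain ⟨A, hA⟩ : ∃ A : ℝ, A = 1 + 3 * Kφ + CB + Mm := ⟨_, rfl⟩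
  have hA1 : 1 ≤ A := by rw [hA]; linarith
  refine ⟨A, hA1, ?_⟩
  intro x hx
  obtain ⟨y, hy⟩ : ∃ y : ℝ, y = x / (16 * KN) := ⟨_, rfl⟩
  have hy0 : 0 < y := by rw [hy]; positivity
  have hyK : KN * y ≤ x / 16 := by
    rw [hy]
    apply le_of_eq
    field_simp
  -- numbers
  obtain ⟨m1, hm1⟩ := NUS4.log_pow_small 0 hκ Kg
  obtain ⟨m2, hm2⟩ := NUS4.log_pow_small k hκ 1
  obtain ⟨m3, hm3⟩ := NUS4.log_pow_small (2 * k + 1) (show 0 < 2 * κ by positivity) 1
  obtain ⟨m4, hm4⟩ := NUS4.log_pow_small 0 (show 0 < 2 * κ by positivity) (18 / y)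
  refine ⟨x / 24, 8 * KN + 6 * CB + x, by positivity, by positivity,
    max (max (max m1 m2) (max m3 m4)) 3, ?_⟩
  intro m hm I r O g p n aX aY cf B1 T1 D q S hD
  have hM1 : m1 ≤ m := (le_max_left _ _).trans ((le_max_left _ _).trans ((le_max_left _ _).trans hm))
  have hM2 : m2 ≤ m := (le_max_right _ _).trans ((le_max_left _ _).trans ((le_max_left _ _).trans hm))
  have hM3 : m3 ≤ m := (le_max_left _ _).trans ((le_max_right _ _).trans ((le_max_left _ _).trans hm))
  have hM4 : m4 ≤ m := (le_max_right _ _).trans ((le_max_right _ _).trans ((le_max_left _ _).trans hm))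
  have hm3' : 3 ≤ m := (le_max_right _ _).trans hm
  have hmr : (3:ℝ) ≤ m := by exact_mod_cast hm3'
  have hmp : (0:ℝ) < m := by linarith
  obtain ⟨L, hL⟩ : ∃ L, L = Real.log m := ⟨_, rfl⟩
  have hL0 : 0 ≤ L := by rw [hL]; exact Real.log_nonneg (by linarith)
  obtain ⟨z, hz⟩ : ∃ z, z = (m : ℝ) ^ (-κ) := ⟨_, rfl⟩
  have hz0 : 0 ≤ z := by rw [hz]; exact (Real.rpow_pos_of_pos hmp _).le
  have hz2 : z ^ 2 = (m : ℝ) ^ (-(2 * κ)) := by
    rw [hz, ← Real.rpow_natCast, ← Real.rpow_mul hmp.le]
    congr 1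
    push_cast
    ring
  have n1 : Kg * z ≤ 1 := by
    have := hm1 m hM1
    rw [pow_zero, mul_one, ← hz] at this
    exact this
  have n2 : L ^ k * z ≤ 1 := by
    have := hm2 m hM2
    rw [one_mul, ← hz, ← hL] at this
    exact this
  have n3 : L ^ (2 * k + 1) * z ^ 2 ≤ 1 := by
    have := hm3 m hM3
    rw [one_mul, ← hz2, ← hL] at this
    exact this
  have n4 : 18 * z ^ 2 ≤ y := by
    have := hm4 m hM4
    rw [pow_zero, mul_one, ← hz2, div_mul_eq_mul_div, div_le_one hy0] at this
    exact this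
  obtain ⟨dl, ε, M, e, hok, hε, hM, hdl⟩ := hD.ok
  rw [← hz] at hε hdl
  rw [← hL] at hM
  have hεn := hok.eps0
  have hMn := hok.M0
  have hdl0 := hok.dl0
  have hMe : M * ε ≤ 1 := by
    calc M * ε ≤ L ^ k * z := by gcongr
      _ ≤ 1 := n2
  have hr0 : (0:ℝ) ≤ r := Nat.cast_nonneg r
  have hw0 := win_nonneg (Finset.univ : Finset (Fin r)) (fun i => ht (O i))
  have hw1 := NUS4.win_le_sq (fun i => ht (O i))
  constructor
  · refine ⟨hD.pk, hD.nk, fun a => hD.s2 a, ?_, hD.fld, hok.reg', ?_,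
      ?_, ?_, ?_, fun a => datO6_D I P O a, fun a => datO6_D1 I P O a, hok.der,
      fun a => ⟨ε, M, e, hok.cur a, hε.trans_eq hz⟩⟩
    · exact ⟨Kg * ε, Hgeo hok (le_trans (by gcongr) n1)⟩
    · exact fun a t => ((hok.phi_C1 (fun a => hok.Qr_C1 a) a).differentiable (by norm_num) t).hasDerivAt
    · exact fun a => (hok.phi_C1 (fun a => hok.Qr_C1 a) a).continuous_deriv le_rfl
    · intro a t
      have h1 := Hφ (O := O) hok a t
      have h2 := hD.w0 a t
      have h3 : dl * r ≤ r := by
        have := hok.d2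
        clear * - this
        nlinarith
      have h4 : M * ε + dl * r ≤ 2 + r := by linarith
      have h5 : |phiO6 I P O a t| ≤ Kφ * (2 + r) + CB := by
        refine h1.trans (add_le_add ?_ h2)
        gcongr
      have h6 : 1 ≤ (r : ℝ) + 1 + L := by linarith
      show |phiO6 I P O a t| ≤ qc A (r + G) m ^ 2
      have hG0 : (0 : ℝ) ≤ G := Nat.cast_nonneg G
      unfold qc
      rw [← hL]
      push_cast
      have h7 : Kφ * (2 + r) + CB ≤ A * (r + 1 + L) := by
        have h8 : Kφ * (2 + r) + CB ≤ (3 * Kφ + CB) * (r + 1 + L) := by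
          have h9 : 0 ≤ CB * (r + L) := by positivity
          clear * - hep1 hKφ hL0 h9 hep
          nlinarith
        have h9 : (3 * Kφ + CB) * (r + 1 + L) ≤ A * (r + 1 + L) :=
          mul_le_mul_of_nonneg_right (by rw [hA]; (clear * - hep hep1 hMm; linarith)) (by linarith)
        linarith
      have h10 : A * (r + 1 + L) ≤ A * (r + G + 1 + L) := by gcongr; linarith
      have h11 : 1 ≤ A * (r + G + 1 + L) := by (clear * - hep hep1 hCB hKφ h7 h10; nlinarith)
      clear * - hep1 hCB hKφ n2 h1 h2 h3 h7 h10 hep hMe hz0 hM hε hMn h11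
      nlinarith
    · intro a t
      have h1 := (Hm (Fin r) O a t).1
      have h2 : |I.ν a t| ≤ CB * (bmaj Finset.univ g (5 / 2) t + plt (TW ep e1 m) t) := by
        refine (hD.ν0 a t).trans_eq ?_
        unfold bmaj
        congr 2
      have h3 : |muC6 P O a t| ≤ Mm * bmaj Finset.univ (fun i => ht (O i)) (5 / 2) t := by
        refine h1.trans_eq ?_
        unfold bmaj
        congr 1
        exact Finset.sum_congr rfl fun i _ => by ring_nf
      have hb0 : 0 ≤ bmaj Finset.univ (fun i => ht (O i)) (5 / 2) t := bmaj_nonneg _ _ _ _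
      have hp0 := plt_nonneg (TW ep e1 m) t
      show |muC6 P O a t + I.ν a t| ≤ _
      refine (abs_add_le _ _).trans ?_
      have h4 : Mm * bmaj Finset.univ (fun i => ht (O i)) (5 / 2) t ≤
          A * bmaj Finset.univ (fun i => ht (O i)) (5 / 2) t := by
        gcongr
        rw [hA]
        clear * - hep hep1 hCB hKφ
        linarith
      have hb1 : 0 ≤ bmaj Finset.univ g (5 / 2) t := bmaj_nonneg _ _ _ _
      have h5 : CB * (bmaj Finset.univ g (5 / 2) t + plt (TW ep e1 m) t) ≤
          A * (bmaj Finset.univ g (5 / 2) t + plt (TW ep e1 m) t) := by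
        gcongr
        rw [hA]
        clear * - hep hep1 hKφ hMm
        linarith
      rw [bmaj_hts]
      clear * - h2 h3 h4 h5
      nlinarith
  · intro T hT
    have hNW : ∀ a, NW I T a ≤ CB + x / 24 * (T + 1) := fun a => hD.w1 a T hT
    have hN : ∀ a, Nl (datO6 I P O) T a ≤ KN * (2 + y * win Finset.univ (fun i => ht (O i)) +
        y * (T + 1)) + 3 * (CB + x / 24 * (T + 1)) := by
      intro a
      refine (HN hok T hT a).trans ?_
      have h1 : (M * ε) ^ 2 * ((1 - e1) * NUO.Tb (Real.log m)) ≤ 1 := by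
        have h2 : (1 - e1) * NUO.Tb (Real.log m) ≤ L := by
          rw [← hL]
          unfold NUO.Tb
          clear * - hL0 hep hep1 he
          nlinarith
        have h3 : (M * ε) ^ 2 ≤ (L ^ k * z) ^ 2 := by (clear * - hMn hεn hM hε hL0; gcongr)
        calc (M * ε) ^ 2 * ((1 - e1) * NUO.Tb (Real.log m)) ≤ (L ^ k * z) ^ 2 * L := by
              have : 0 ≤ (1 - e1) * NUO.Tb (Real.log m) := hok.b0
              clear * - this h3 h2
              gcongr
          _ = L ^ (2 * k + 1) * z ^ 2 := by ring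
          _ ≤ 1 := n3
      have h2 : dl ^ 2 * win Finset.univ (fun i => ht (O i)) ≤
          1 + y * win Finset.univ (fun i => ht (O i)) := by
        have h3 : dl ^ 2 ≤ (3 * z) ^ 2 := pow_le_pow_left₀ hdl0 hdl 2
        have h4 : dl ^ 2 ≤ y := by (clear * - hy0 n4 h3; nlinarith)
        have h5 : dl ^ 2 * win Finset.univ (fun i => ht (O i)) ≤
            y * win Finset.univ (fun i => ht (O i)) := mul_le_mul_of_nonneg_right h4 hw0
        clear * - hep hep1 h5
        linarith
      have h4 := hNW a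
      have h5 : KN * ((M * ε) ^ 2 * ((1 - e1) * NUO.Tb (Real.log m)) +
          dl ^ 2 * win Finset.univ (fun i => ht (O i))) ≤
          KN * (2 + y * win Finset.univ (fun i => ht (O i)) + y * (T + 1)) := by
        have h6 : 0 ≤ y * (T + 1) := by positivity
        exact mul_le_mul_of_nonneg_left (by (clear * - h1 h2 h6; linarith)) (by linarith)
      clear * - h4 h5
      linarith
    have h1 := hN true
    have h2 := hN false
    unfold NT
    have h3 : KN * (2 + y * win Finset.univ (fun i => ht (O i)) + y * (T + 1)) ≤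
        2 * KN + x / 16 * win Finset.univ (fun i => ht (O i)) + x / 16 * (T + 1) := by
      have h4 : KN * y * win Finset.univ (fun i => ht (O i)) ≤
          x / 16 * win Finset.univ (fun i => ht (O i)) := by (clear * - hw0 hyK; gcongr)
      have h5 : KN * y * (T + 1) ≤ x / 16 * (T + 1) := by gcongr
      clear * - h4 h5
      nlinarith
    have h6 : 0 ≤ x * win Finset.univ (fun i => ht (O i)) := by (clear * - hx hw0; positivity)
    have h7 : 0 ≤ x * T := by positivity
    clear * - hep hep1 hKN hx h1 h2 h3 h6 h7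
    nlinarith

/-- **the crude bound of the gas of a configuration** -/
theorem crudeC6 {P : Par6} (hP : Ok6 P) : CrudeC6 P := crudeC_of6 (instC6 hP)

/-- **the sharp bound of the gas of a configuration** -/
theorem sharpC6 {P : Par6} (hP : Ok6 P) : SharpC6 P := sharpC_of6 (instC6 hP)

end NUSea.PLX.H0
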