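import Pool.Agent.PHK.H0.GasC
import Pool.Agent.PLX.NUS4C.SharpI
import Pool.Agent.NUO.SharpG

/-!
# `CrudeC6` and `SharpC6` from the instance of a configuration, general sea

`InstC6`: the data `DatC6` give `NUSea.H0.Inst` for the heights of the objects and the places of the
extra densities, and the bound of the local energy.
-/

set_option autoImplicit false

noncomputable section

open MeasureTheory Finset
open scoped ENNReal

namespace NUSea.PLX.H0

open NUO (Xo ht TW excS excS_nonneg excS_ge)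
open PHK NUStabP NUDispW
open NUH0 (T0i T0i_ge shF shF_nonneg)

variable [Sea]

/-- heights of the objects and places of the extra densities -/
def hts {r G : ℕ} (O : Fin r → Xo) (g : Fin G → ℝ) : Fin (r + G) → ℝ :=
  Fin.append (fun i => ht (O i)) g

/-- the instance of a configuration -/
def InstC6 (P : Par6) : Prop :=
  ∀ (kb : ℝ), 1 ≤ kb → ∀ (G : ℕ) (ep : ℝ), 0 < ep → ep ≤ 1 / 100 → ∀ e1 : ℝ, 0 < e1 → e1 ≤ 1 / 100 →
    ∀ (k : ℕ) (κ CB : ℝ), 0 < κ → 0 ≤ CB → ∃ A : ℝ, 1 ≤ A ∧ ∀ x : ℝ, 0 < x →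
    ∃ ϑ N1 : ℝ, 0 < ϑ ∧ 0 ≤ N1 ∧ ∃ m0 : ℕ, ∀ m ≥ m0,
      ∀ (I : Inp) (r : ℕ) (O : Fin r → Xo) (g : Fin G → ℝ) (p n : ℕ)
        (aX aY cf B1 : ℝ → ℝ) (T1 D q S : ℝ),
      DatC6 ep e1 κ CB ϑ kb k m I P O g p n aX aY cf B1 T1 D q S →
        Inst (datO6 I P O) p n kb A κ m (hts O g) (TW ep e1 m) ((1 - e1) * NUO.Tb (Real.log m))
          I.η I.η1 ∧
        ∀ T, 0 ≤ T → NT (datO6 I P O) T ≤ N1 + x * win univ (fun i => ht (O i)) + x * T

lemma win_fin {r : ℕ} (h : Fin r → ℝ) {W : Finset ℤ} (hW : (univ : Finset (Fin r)).image (fun i => ⌊h i⌋) ⊆ W) :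
    win univ h = ∑ w ∈ W, (((univ : Finset (Fin r)).filter fun i => ⌊h i⌋ = w).card : ℝ) ^ 2 := by
  unfold win
  refine Finset.sum_subset hW fun w _ hw => ?_
  have h1 : (univ : Finset (Fin r)).filter (fun i => ⌊h i⌋ = w) = ∅ := by
    refine Finset.filter_eq_empty_iff.2 fun i _ hi => hw ?_
    exact Finset.mem_image.2 ⟨i, Finset.mem_univ i, hi⟩
  rw [h1, Finset.card_empty]
  norm_num

/-- the windows of the objects and of the places -/
theorem win_hts {r G : ℕ} (O : Fin r → Xo) (g : Fin G → ℝ) :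
    win univ (hts O g) ≤ 2 * win univ (fun i => ht (O i)) + 2 * (G : ℝ) ^ 2 := by
  classical
  obtain ⟨W, hW⟩ : ∃ W : Finset ℤ, W = (univ : Finset (Fin (r + G))).image (fun i => ⌊hts O g i⌋) :=
    ⟨_, rfl⟩
  have s1 : (univ : Finset (Fin r)).image (fun i => ⌊ht (O i)⌋) ⊆ W := by
    intro w hw
    obtain ⟨i, -, hi⟩ := Finset.mem_image.1 hw
    rw [hW]
    refine Finset.mem_image.2 ⟨Fin.castAdd G i, Finset.mem_univ _, ?_⟩
    unfold hts
    rw [Fin.append_left]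
    exact hi
  have s2 : (univ : Finset (Fin G)).image (fun i => ⌊g i⌋) ⊆ W := by
    intro w hw
    obtain ⟨i, -, hi⟩ := Finset.mem_image.1 hw
    rw [hW]
    refine Finset.mem_image.2 ⟨Fin.natAdd r i, Finset.mem_univ _, ?_⟩
    unfold hts
    rw [Fin.append_right]
    exact hi
  have h0 := NUS4.win_le_sq g
  rw [win_fin (hts O g) (W := W) (by rw [hW]), win_fin (fun i => ht (O i)) s1]
  rw [win_fin g s2] at h0
  have h1 : ∀ w, (((univ : Finset (Fin (r + G))).filter fun i => ⌊hts O g i⌋ = w).card : ℝ) =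
      ((univ : Finset (Fin r)).filter fun i => ⌊ht (O i)⌋ = w).card +
      ((univ : Finset (Fin G)).filter fun i => ⌊g i⌋ = w).card := by
    intro w
    have e1 : ∀ (N : ℕ) (f : Fin N → ℝ), (((univ : Finset (Fin N)).filter fun i => ⌊f i⌋ = w).card : ℝ) =
        ∑ i, if ⌊f i⌋ = w then (1 : ℝ) else 0 := by
      intro N f
      rw [Finset.sum_boole]
    rw [e1, e1, e1, Fin.sum_univ_add]
    unfold hts
    simp only [Fin.append_left, Fin.append_right]
  calc ∑ w ∈ W, (((univ : Finset (Fin (r + G))).filter fun i => ⌊hts O g i⌋ = w).card : ℝ) ^ 2 ≤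
      ∑ w ∈ W, (2 * (((univ : Finset (Fin r)).filter fun i => ⌊ht (O i)⌋ = w).card : ℝ) ^ 2 +
        2 * (((univ : Finset (Fin G)).filter fun i => ⌊g i⌋ = w).card : ℝ) ^ 2) := by
        refine Finset.sum_le_sum fun w _ => ?_
        rw [h1 w]
        clear * -
        nlinarith [sq_nonneg ((((univ : Finset (Fin r)).filter fun i => ⌊ht (O i)⌋ = w).card : ℝ) -
          (((univ : Finset (Fin G)).filter fun i => ⌊g i⌋ = w).card : ℝ))]
    _ = 2 * (∑ w ∈ W, (((univ : Finset (Fin r)).filter fun i => ⌊ht (O i)⌋ = w).card : ℝ) ^ 2) +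
        2 * (∑ w ∈ W, (((univ : Finset (Fin G)).filter fun i => ⌊g i⌋ = w).card : ℝ) ^ 2) := by
        rw [Finset.sum_add_distrib, Finset.mul_sum, Finset.mul_sum]
    _ ≤ _ := by linarith

/-- constant of the shells -/
def shC : ℝ := Real.exp (5 / 2) / (1 - Real.exp (-(1 / 20)))

theorem shC_pos : 0 < 1 - Real.exp (-(1 / 20 : ℝ)) := by
  have h : Real.exp (-(1 / 20 : ℝ)) < 1 := by
    rw [Real.exp_lt_one_iff]
    norm_num
  linarith

theorem shC_nonneg : 0 ≤ shC := by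
  have := shC_pos
  unfold shC
  positivity

/-- **the sum over the shells is bounded** -/
theorem shF_le {ε' D q S T1 T0 : ℝ} (hε : ε' ≤ 1 / 200) (hD : 0 ≤ D) (hq : 49 / 20 ≤ q)
    (hS : D * Real.exp (-(q * T1)) ≤ S) (hT : T1 ≤ T0) :
    shF D q (7 / 3 + 2 * ε') T0 ≤ S * shC := by
  have h2 : D * Real.exp (-q * T0) ≤ S := by
    refine le_trans ?_ hS
    have h3 : Real.exp (-q * T0) ≤ Real.exp (-(q * T1)) := Real.exp_le_exp.2 (by (clear * - hT hq; nlinarith))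
    gcongr
  have h5 : Real.exp (-(q - (7 / 3 + 2 * ε'))) ≤ Real.exp (-(1 / 20)) :=
    Real.exp_le_exp.2 (by linarith)
  have h7 : Real.exp (7 / 3 + 2 * ε') ≤ Real.exp (5 / 2) := Real.exp_le_exp.2 (by linarith)
  have h8 := shC_pos
  have hS0 : 0 ≤ S := le_trans (by positivity) hS
  unfold shF shC
  rw [← mul_div_assoc]
  clear * - hS0 h2 h7 h8 h5
  gcongr

/-- the arithmetic of the exponents -/
theorem arithC {L T' ep e1 δ ε' x x2 C N1 kap W W' S Y R G M0 : ℝ} (hL : 0 ≤ L)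
    (hT' : T' = (1 + 2 * e1 + 2 * ep) * NUO.Tb L) (hep : 0 < ep) (hep1 : ep ≤ 1 / 100) (he : 0 < e1)
    (he1 : e1 ≤ 1 / 100) (hε'0 : 0 ≤ ε') (hε' : ε' ≤ δ / 4) (hx0 : 0 ≤ x) (hx : x ≤ δ / 4)
    (hx1 : x ≤ kap / 8) (hx2 : C * x2 ≤ kap / 4) (hW : 0 ≤ W) (hY : Y ≤ S)
    (hW' : W' ≤ 2 * W + 2 * G ^ 2) :
    M0 + ((7 / 3 + 2 * ε') * T' + 12 / 5 * Y + 6 * (R + G) + C * (1 + (N1 + x2 * W)) +
        x * (W' + 1 + L) + 1) ≤
      (C * (1 + N1) + x * (1 + 2 * G ^ 2) + 6 * G + 1) + L * (7 / 8 + 2 * (ep + e1) + δ / 2) +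
        (M0 + 6 * R + 12 / 5 * S + kap * W) := by
  have h1 : (7 / 3 + 2 * ε') * T' ≤ L * (7 / 8 + 2 * (ep + e1) + δ / 4) := by
    rw [hT']
    unfold NUO.Tb
    have h2 : (7 / 3 + 2 * ε') * (1 + 2 * e1 + 2 * ep) * (3 / 8) ≤ 7 / 8 + 2 * (ep + e1) + ε' := by
      clear * - hε'0 hep hep1 he he1
      nlinarith
    calc (7 / 3 + 2 * ε') * ((1 + 2 * e1 + 2 * ep) * (3 / 8 * L)) =
        ((7 / 3 + 2 * ε') * (1 + 2 * e1 + 2 * ep) * (3 / 8)) * L := by ring
      _ ≤ (7 / 8 + 2 * (ep + e1) + ε') * L := by (clear * - h2 hL; gcongr)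
      _ ≤ _ := by (clear * - hL hε'; nlinarith)
  have h3 : C * x2 * W ≤ kap / 4 * W := by gcongr
  have h4 : x * W ≤ kap / 8 * W := by gcongr
  have h4' : x * W' ≤ x * (2 * W + 2 * G ^ 2) := by gcongr
  have h5 : x * L ≤ δ / 4 * L := by gcongr
  have h6 : 0 ≤ kap / 2 * W := by
    have : 0 ≤ kap := by (clear * - hx0 hx1; linarith)
    positivity
  clear * - hY h1 h3 h4 h4' h5 h6
  nlinarith

/-- **the crude bound** -/
theorem crudeC_of6 {P : Par6} (hI : InstC6 P) : CrudeC6 P := by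
  refine ⟨6, 2, by norm_num, by norm_num, ?_⟩
  intro kb hkb G kap hkap ep hep hep1 e1 he he1 δ hδ k κ CB hκ hCB
  obtain ⟨A, hA, hInst⟩ := hI kb hkb G ep hep hep1 e1 he he1 k κ CB hκ hCB
  obtain ⟨ε', hε'⟩ : ∃ ε' : ℝ, ε' = min (1 / 200) (δ / 4) := ⟨_, rfl⟩
  have hε'0 : 0 < ε' := by rw [hε']; exact lt_min (by norm_num) (by positivity)
  have hε'1 : ε' ≤ 1 / 200 := by rw [hε']; exact min_le_left _ _
  have hε'2 : ε' ≤ δ / 4 := by rw [hε']; exact min_le_right _ _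
  obtain ⟨C, hC, HC⟩ := crude (k := kb) (A := A) (κ := κ) (ε' := ε') (by (clear * - hkb hε'0 hε'1; linarith)) hA hκ hε'0 hε'1
  obtain ⟨x, hx⟩ : ∃ x : ℝ, x = min (kap / 8) (δ / 4) := ⟨_, rfl⟩
  have hx0 : 0 < x := by rw [hx]; exact lt_min (by positivity) (by positivity)
  have hx1 : x ≤ kap / 8 := by rw [hx]; exact min_le_left _ _
  have hx2 : x ≤ δ / 4 := by rw [hx]; exact min_le_right _ _
  obtain ⟨m1, HM⟩ := HC hx0
  obtain ⟨x2, hx2d⟩ : ∃ x2 : ℝ, x2 = min (ε' / (C + 1)) (kap / 4 / (C + 1)) := ⟨_, rfl⟩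
  have hC1 : 0 < C + 1 := by (clear * - hε'0 hε'1 hC; linarith)
  have hx20 : 0 < x2 := by rw [hx2d]; exact lt_min (by positivity) (by positivity)
  have hx2a : C * x2 ≤ ε' := by
    have h1 : x2 ≤ ε' / (C + 1) := by rw [hx2d]; exact min_le_left _ _
    rw [le_div_iff₀ hC1] at h1
    clear * - hx20 h1
    nlinarith
  have hx2b : C * x2 ≤ kap / 4 := by
    have h1 : x2 ≤ kap / 4 / (C + 1) := by rw [hx2d]; exact min_le_right _ _
    rw [le_div_iff₀ hC1] at h1
    clear * - hx20 h1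
    nlinarith
  obtain ⟨ϑ, N1, hϑ, hN1, m2, hI2⟩ := hInst x2 hx20
  refine ⟨ϑ, Real.exp (C * (1 + N1) + x * (1 + 2 * (G : ℝ) ^ 2) + 6 * G + 1) * (1 + shC), hϑ, by
    have := shC_nonneg
    positivity, max (max m1 m2) 3, ?_⟩
  intro m hm I r O g p n aX aY cf B1 T1 D q S hD
  obtain ⟨i1, i2⟩ := hI2 m ((le_max_right _ _).trans ((le_max_left _ _).trans hm)) I r O g p n aX aY
    cf B1 T1 D q S hD
  have hm3 : 3 ≤ m := (le_max_right _ _).trans hm
  have hmr : (3:ℝ) ≤ m := by exact_mod_cast hm3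
  have hmp : (0:ℝ) < m := by (clear * - hε'0 hε'1 hmr; linarith)
  obtain ⟨L, hL⟩ : ∃ L, L = Real.log m := ⟨_, rfl⟩
  have hL0 : 0 ≤ L := by rw [hL]; exact Real.log_nonneg (by (clear * - hε'0 hε'1 hmr; linarith))
  obtain ⟨T', hT'⟩ : ∃ T', T' = TW ep e1 m := ⟨_, rfl⟩
  have hTW : T' = (1 + 2 * e1 + 2 * ep) * NUO.Tb L := by rw [hT', hL]; rfl
  have hT1 : 3 / 8 * L ≤ T' := by
    rw [hTW]
    unfold NUO.Tb
    clear * - hep hL0 hep1 he
    nlinarith
  have hT2 : T' ≤ L := by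
    rw [hTW]
    unfold NUO.Tb
    clear * - hL0 hep hep1 he1
    nlinarith
  have hb0 : 0 ≤ (1 - e1) * NUO.Tb (Real.log m) := by
    rw [← hL]
    unfold NUO.Tb
    have : 0 ≤ 1 - e1 := by (clear * - he1 hε'0 hε'1; linarith)
    clear * - this hL0
    positivity
  have hb1 : (1 - e1) * NUO.Tb (Real.log m) ≤ Real.log m := by
    rw [← hL]
    unfold NUO.Tb
    clear * - hL0 hep hep1 he
    nlinarith
  have hT1' : T' + excS T' O ≤ T1 := by
    have := hD.tw
    rwa [← hT'] at this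
  obtain ⟨Y, hY⟩ : ∃ Y, Y = T1 - T' := ⟨_, rfl⟩
  have hY0 : 0 ≤ Y := by
    have := excS_nonneg T' O
    clear * - hT1' hY this
    linarith
  have hw0 := win_nonneg (Finset.univ : Finset (Fin r)) (fun i => ht (O i))
  have hw1 := win_hts O g
  have hq1 := hD.q1
  have key := HM m ((le_max_left _ _).trans ((le_max_left _ _).trans hm)) i1 hb0 hb1 hD.shl
    (by (clear * - hε'0 hε'1 hq1; linarith)) (Y := Y) (by rw [← hT', ← hL]; exact hT1) (by rw [← hT', ← hL]; exact hT2)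
    hY0 (fun i => by
      rw [← hT']
      refine Fin.addCases (fun i => ?_) (fun j => ?_) i
      · unfold hts
        rw [Fin.append_left]
        have := excS_ge T' O i
        clear * - hT1' hY this
        linarith
      · unfold hts
        rw [Fin.append_right]
        have := hD.gs j
        clear * - hY this
        linarith) (N0 := N1 + x2 * win univ (fun i => ht (O i))) (e1 := x2) hx2a
    (fun T hT => i2 T (by
      have h1 := T0i_ge (T' := TW ep e1 m) (Y := Y) (r := r + G) (m := m) hA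
        (by rw [← hL]; exact hL0) hY0
      rw [← hT'] at h1 hT
      clear * - hL0 hT1 hY0 hT h1
      linarith))
  refine key.trans (ENNReal.ofReal_le_ofReal ?_)
  have hT0 : T1 ≤ T0i (TW ep e1 m) Y A (r + G) m := by
    have h1 := T0i_ge (T' := TW ep e1 m) (Y := Y) (r := r + G) (m := m) hA
      (by rw [← hL]; exact hL0) hY0
    rw [← hT'] at h1 ⊢
    clear * - hY h1
    linarith
  have hDS := hD.DS
  have hS0 : 0 ≤ S := le_trans (mul_nonneg hD.shl.D0 (Real.exp_pos _).le) hDS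
  have hsh := shF_le (ε' := ε') hε'1 hD.shl.D0 hq1 hDS hT0
  have hsh0 := shF_nonneg (T0 := T0i (TW ep e1 m) Y A (r + G) m) hD.shl.D0
    (show 7 / 3 + 2 * ε' < q by (clear * - hε'0 hε'1 hq1; linarith))
  have hshC := shC_nonneg
  have hshf : 1 + shF D q (7 / 3 + 2 * ε') (T0i (TW ep e1 m) Y A (r + G) m) ≤
      (1 + S) * (1 + shC) := by (clear * - hS0 hsh hshC; linarith)
  have har := arithC (M0 := MFs I.s p n + (datO6 I P O).En) (N1 := N1) (R := r) (G := G)
    (Y := Y) (S := Y) (W := win univ (fun i => ht (O i))) (W' := win univ (hts O g))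
    hL0 hTW hep hep1 he he1 hε'0.le hε'2 hx0.le hx2 hx1 hx2b hw0 le_rfl hw1
  have hexp : Real.exp (MFs (datO6 I P O).s p n + (datO6 I P O).En +
      ((7 / 3 + 2 * ε') * TW ep e1 m + 12 / 5 * Y + 6 * (r + G : ℕ) +
        C * (1 + (N1 + x2 * win univ fun i => ht (O i))) +
        x * (win univ (hts O g) + 1 + Real.log m) + 1)) ≤
      Real.exp (C * (1 + N1) + x * (1 + 2 * (G : ℝ) ^ 2) + 6 * G + 1) * ((m : ℝ) ^ (7 / 8 + 2 * (ep + e1) + δ) *
        Real.exp (confC6 ep e1 m I P p n 6 kap O T1)) := by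
    rw [Real.rpow_def_of_pos hmp, ← Real.exp_add, ← Real.exp_add]
    refine Real.exp_le_exp.2 ?_
    unfold confC6
    rw [← hT', ← hL]
    have h1 : L * (7 / 8 + 2 * (ep + e1) + δ / 2) ≤ L * (7 / 8 + 2 * (ep + e1) + δ) := by gcongr; (clear * - hε'0 hε'2; linarith)
    have h2 : MFs (datO6 I P O).s p n = MFs I.s p n := rfl
    rw [h2, ← hY]
    push_cast
    clear * - har h1
    linarith
  calc (p.factorial : ℝ) * n.factorial * Real.exp (MFs (datO6 I P O).s p n + (datO6 I P O).En +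
      ((7 / 3 + 2 * ε') * TW ep e1 m + 12 / 5 * Y + 6 * (r + G : ℕ) +
        C * (1 + (N1 + x2 * win univ fun i => ht (O i))) +
        x * (win univ (hts O g) + 1 + Real.log m) + 1)) *
      (1 + shF D q (7 / 3 + 2 * ε') (T0i (TW ep e1 m) Y A (r + G) m))
      ≤ (p.factorial : ℝ) * n.factorial * (Real.exp (C * (1 + N1) + x * (1 + 2 * (G : ℝ) ^ 2) + 6 * G + 1) *
        ((m : ℝ) ^ (7 / 8 + 2 * (ep + e1) + δ) *
        Real.exp (confC6 ep e1 m I P p n 6 kap O T1))) * ((1 + S) * (1 + shC)) := by (clear * - hexp hshf hsh0 hm3; gcongr)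
    _ = _ := by ring

/-- **the sharp bound** -/
theorem sharpC_of6 {P : Par6} (hI : InstC6 P) : SharpC6 P := by
  refine ⟨6, 3, by norm_num, by norm_num, ?_⟩
  intro kb hkb G kap hkap ep hep hep1 e1 he he1 δ hδ k κ CB w hκ hCB hw hwl
  obtain ⟨A, hA, hInst⟩ := hI kb hkb G ep hep hep1 e1 he he1 k κ CB hκ hCB
  obtain ⟨ε', hε'⟩ : ∃ ε' : ℝ, ε' = min (1 / 200) (δ / 4) := ⟨_, rfl⟩
  have hε'0 : 0 < ε' := by rw [hε']; exact lt_min (by norm_num) (by positivity)
  have hε'1 : ε' ≤ 1 / 200 := by rw [hε']; exact min_le_left _ _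
  have hε'2 : ε' ≤ δ / 4 := by rw [hε']; exact min_le_right _ _
  obtain ⟨C, hC, HC⟩ := NUS4C.PLX.sharpI (ε := ε') (k := kb) (A := A) (κ := κ) (ε' := ε') hε'0 (by (clear * - hε'0 hε'1; linarith))
    (by (clear * - hkb hε'0 hε'1; linarith)) hA hκ hε'0 hε'1
  obtain ⟨x, hx⟩ : ∃ x : ℝ, x = min (kap / 8) (δ / 4) := ⟨_, rfl⟩
  have hx0 : 0 < x := by rw [hx]; exact lt_min (by positivity) (by positivity)
  have hx1 : x ≤ kap / 8 := by rw [hx]; exact min_le_left _ _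
  have hx2 : x ≤ δ / 4 := by rw [hx]; exact min_le_right _ _
  obtain ⟨C', m1, hC', -, HM⟩ := HC k he (by (clear * - he1 hε'0 hε'1; linarith)) hw hwl hx0
  obtain ⟨x2, hx2d⟩ : ∃ x2 : ℝ, x2 = min (ε' / (C + 1)) (kap / 4 / (C + 1)) := ⟨_, rfl⟩
  have hC1 : 0 < C + 1 := by linarith
  have hx20 : 0 < x2 := by rw [hx2d]; exact lt_min (by positivity) (by positivity)
  have hx2a : C * x2 ≤ ε' := by
    have h1 : x2 ≤ ε' / (C + 1) := by rw [hx2d]; exact min_le_left _ _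
    rw [le_div_iff₀ hC1] at h1
    clear * - hx20 h1
    nlinarith
  have hx2b : C * x2 ≤ kap / 4 := by
    have h1 : x2 ≤ kap / 4 / (C + 1) := by rw [hx2d]; exact min_le_right _ _
    rw [le_div_iff₀ hC1] at h1
    clear * - hx20 h1
    nlinarith
  obtain ⟨ϑ, N1, hϑ, hN1, m2, hI2⟩ := hInst x2 hx20
  refine ⟨ϑ, C' * Real.exp (C * (1 + N1) + x * (1 + 2 * (G : ℝ) ^ 2) + 6 * G + 1) * (1 + shC), hϑ, by
    have := shC_nonneg
    positivity, max (max m1 m2) 3, ?_⟩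
  intro m hm I r O g p n aX aY cf B1 T1 D q S hD hG hr hht hgt hDS
  obtain ⟨i1, i2⟩ := hI2 m ((le_max_right _ _).trans ((le_max_left _ _).trans hm)) I r O g p n aX aY
    cf B1 T1 D q S hD
  have hm3 : 3 ≤ m := (le_max_right _ _).trans hm
  have hmr : (3:ℝ) ≤ m := by exact_mod_cast hm3
  have hmp : (0:ℝ) < m := by (clear * - hε'0 hε'1 hmr; linarith)
  obtain ⟨L, hL⟩ : ∃ L, L = Real.log m := ⟨_, rfl⟩
  have hL0 : 0 ≤ L := by rw [hL]; exact Real.log_nonneg (by (clear * - hε'0 hε'1 hmr; linarith))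
  obtain ⟨T', hT'⟩ : ∃ T', T' = TW ep e1 m := ⟨_, rfl⟩
  have hTW : T' = (1 + 2 * e1 + 2 * ep) * NUO.Tb L := by rw [hT', hL]; rfl
  have hT1 : 3 / 8 * L ≤ T' := by
    rw [hTW]
    unfold NUO.Tb
    clear * - hep he hr hL hep1
    nlinarith
  have hT2 : T' ≤ L := by
    rw [hTW]
    unfold NUO.Tb
    clear * - hr hL hep1 he1 hep he
    nlinarith
  have hb0 : 0 ≤ (1 - e1) * NUO.Tb (Real.log m) := by
    rw [← hL]
    unfold NUO.Tb
    have : 0 ≤ 1 - e1 := by (clear * - he1 hε'0 hε'1; linarith)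
    clear * - this hL0
    positivity
  have hb1 : (1 - e1) * NUO.Tb (Real.log m) ≤ Real.log m := by
    rw [← hL]
    unfold NUO.Tb
    clear * - hr hL he hep hep1
    nlinarith
  have hT1' : T' + excS T' O ≤ T1 := by
    have := hD.tw
    rwa [← hT'] at this
  have hT10 : 0 ≤ T1 - T' := by
    have := excS_nonneg T' O
    clear * - hT1' this
    linarith
  obtain ⟨Y, hY⟩ : ∃ Y, Y = min (T1 - T') (L ^ 2) := ⟨_, rfl⟩
  have hY0 : 0 ≤ Y := by rw [hY]; exact le_min hT10 (by positivity)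
  have hYS : Y ≤ T1 - T' := by rw [hY]; exact min_le_left _ _
  have hYL : Y ≤ L ^ 2 := by rw [hY]; exact min_le_right _ _
  have hw0 := win_nonneg (Finset.univ : Finset (Fin r)) (fun i => ht (O i))
  have hw1 := win_hts O g
  have hq1 := hD.q1
  have hT0 : TW ep e1 m ≤ T0i (TW ep e1 m) Y A (r + G) m := by
    have h1 := T0i_ge (T' := TW ep e1 m) (Y := Y) (r := r + G) (m := m) hA
      (by rw [← hL]; exact hL0) hY0
    clear * - hY0 h1
    linarith
  have key := HM m ((le_max_left _ _).trans ((le_max_left _ _).trans hm)) i1 hb0 hb1 hD.shl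
    (by (clear * - hε'0 hε'1 hq1; linarith)) hG (Y := Y) (by rw [← hT', ← hL]; exact hT1) (by rw [← hT', ← hL]; exact hT2)
    hY0 (by rw [← hL]; exact hYL) (fun i => by
      rw [← hT', hY]
      refine Fin.addCases (fun i => ?_) (fun j => ?_) i
      · unfold hts
        rw [Fin.append_left]
        have h1 := excS_ge T' O i
        have h2 := hht i
        rw [← hL] at h2
        rcases min_choice (T1 - T') (L ^ 2) with h | h
        · rw [h]
          clear * - hT1' h1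
          linarith
        · rw [h]
          clear * - hr hL hT1 h2
          linarith
      · unfold hts
        rw [Fin.append_right]
        have h1 := hD.gs j
        have h2 := hgt j
        rw [← hL] at h2
        rcases min_choice (T1 - T') (L ^ 2) with h | h
        · rw [h]
          clear * - h1
          linarith
        · rw [h]
          clear * - hr hL hT1 h2
          linarith) (by push_cast; exact hr)
    (N0 := N1 + x2 * win univ (fun i => ht (O i))) (e1 := x2) hx2a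
    (fun T hT => i2 T (by
      rw [← hT'] at hT0 hT
      clear * - hr hL hT1 hT0 hT
      linarith))
  refine key.trans (ENNReal.ofReal_le_ofReal ?_)
  have hS0 : 0 ≤ S := le_trans (mul_nonneg hD.shl.D0 (Real.exp_pos _).le) hDS
  have hsh := shF_le (ε' := ε') hε'1 hD.shl.D0 hq1 hDS hT0
  have hsh0 := shF_nonneg (T0 := T0i (TW ep e1 m) Y A (r + G) m) hD.shl.D0
    (show 7 / 3 + 2 * ε' < q by (clear * - hε'0 hε'1 hq1; linarith))
  have hshC := shC_nonneg
  have hshf : 1 + shF D q (7 / 3 + 2 * ε') (T0i (TW ep e1 m) Y A (r + G) m) ≤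
      (1 + S) * (1 + shC) := by (clear * - hS0 hsh hshC; linarith)
  have har := arithC (M0 := MFs I.s p n + (datO6 I P O).En) (N1 := N1) (R := r) (G := G)
    (Y := Y) (S := T1 - T') (W := win univ (fun i => ht (O i))) (W' := win univ (hts O g))
    hL0 hTW hep hep1 he he1 hε'0.le hε'2 hx0.le hx2 hx1 hx2b hw0 hYS hw1
  have hexp : Real.exp (MFs (datO6 I P O).s p n + (datO6 I P O).En +
      ((7 / 3 + 2 * ε') * TW ep e1 m + 12 / 5 * Y + 6 * (r + G : ℕ) +
        C * (1 + (N1 + x2 * win univ fun i => ht (O i))) +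
        x * (win univ (hts O g) + 1 + Real.log m) + 1)) ≤
      Real.exp (C * (1 + N1) + x * (1 + 2 * (G : ℝ) ^ 2) + 6 * G + 1) * ((m : ℝ) ^ (7 / 8 + 2 * (ep + e1) + δ / 2) *
        Real.exp (confC6 ep e1 m I P p n 6 kap O T1)) := by
    rw [Real.rpow_def_of_pos hmp, ← Real.exp_add, ← Real.exp_add]
    refine Real.exp_le_exp.2 ?_
    unfold confC6
    rw [← hT', ← hL]
    have h2 : MFs (datO6 I P O).s p n = MFs I.s p n := rfl
    rw [h2]
    push_cast
    clear * - har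
    linarith
  have hpow : (m : ℝ) ^ (7 / 8 + 2 * (ep + e1) + δ / 2) * (m : ℝ) ^ (-(1 / 2 : ℝ) + (ε' + e1)) ≤
      (m : ℝ) ^ (3 / 8 + 3 * (ep + e1) + δ) := by
    rw [← Real.rpow_add hmp]
    refine Real.rpow_le_rpow_of_exponent_le (by (clear * - hε'0 hε'1 hmr; linarith)) ?_
    clear * - hep hε'0 hε'2
    linarith
  have hp1 : 0 ≤ (m : ℝ) ^ (-(1 / 2 : ℝ) + (ε' + e1)) := (Real.rpow_pos_of_pos hmp _).le
  have hp2 : 0 ≤ (m : ℝ) ^ (7 / 8 + 2 * (ep + e1) + δ / 2) := (Real.rpow_pos_of_pos hmp _).le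
  calc C' * ((p.factorial : ℝ) * n.factorial * Real.exp (MFs (datO6 I P O).s p n +
      (datO6 I P O).En + ((7 / 3 + 2 * ε') * TW ep e1 m + 12 / 5 * Y + 6 * (r + G : ℕ) +
        C * (1 + (N1 + x2 * win univ fun i => ht (O i))) +
        x * (win univ (hts O g) + 1 + Real.log m) + 1)) *
      (1 + shF D q (7 / 3 + 2 * ε') (T0i (TW ep e1 m) Y A (r + G) m))) *
        (m : ℝ) ^ (-(1 / 2 : ℝ) + (ε' + e1))
      ≤ C' * ((p.factorial : ℝ) * n.factorial * (Real.exp (C * (1 + N1) +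
        x * (1 + 2 * (G : ℝ) ^ 2) + 6 * G + 1) *
        ((m : ℝ) ^ (7 / 8 + 2 * (ep + e1) + δ / 2) *
        Real.exp (confC6 ep e1 m I P p n 6 kap O T1))) * ((1 + S) * (1 + shC))) *
        (m : ℝ) ^ (-(1 / 2 : ℝ) + (ε' + e1)) := by (clear * - hexp hshf hsh0 hm3 hC'; gcongr)
    _ = (p.factorial : ℝ) * n.factorial * (C' * Real.exp (C * (1 + N1) +
        x * (1 + 2 * (G : ℝ) ^ 2) + 6 * G + 1) * (1 + shC) *
        ((m : ℝ) ^ (7 / 8 + 2 * (ep + e1) + δ / 2) * (m : ℝ) ^ (-(1 / 2 : ℝ) + (ε' + e1))) * (1 + S) *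
        Real.exp (confC6 ep e1 m I P p n 6 kap O T1)) := by ring
    _ ≤ (p.factorial : ℝ) * n.factorial * (C' * Real.exp (C * (1 + N1) +
        x * (1 + 2 * (G : ℝ) ^ 2) + 6 * G + 1) * (1 + shC) *
        (m : ℝ) ^ (3 / 8 + 3 * (ep + e1) + δ) * (1 + S) *
        Real.exp (confC6 ep e1 m I P p n 6 kap O T1)) := by (clear * - hpow hC' hshC hS0; gcongr)
    _ = _ := by ring

end NUSea.PLX.H0
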