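import Pool.Agent.PHK.H0.WoC
import Pool.Agent.PLX.NUSea.H0.SpG

/-!
# Families of groups in the data of a configuration of the six kinds

`exists_spG6`: as `exists_spG`, with `IOk6`.
-/

set_option autoImplicit false
set_option linter.unusedSectionVars false

open MeasureTheory Set Filter Topology

namespace NUSea.PLX.H0

open NUMF NUKer NUAct PHK
open NUO (Xo)
open NUSp (qc)

noncomputable section

variable [Sea]

/-- **families of groups in the data**: everything uniform in the family -/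
theorem exists_spG6 : ∃ K : ℝ, 1 ≤ K ∧ ∀ (n : ℕ) (g : Fin n → Gd) (p q : ℂ) (I : Inp)
    (B' : Bool → ℝ → ℝ), SpI p q g I B' → ∀ (ε M b : ℝ) (e : ℝ → ℝ),
      (∀ a, Cur (I.s a) ε M b e (I.η a)) → (∀ a t, HasDerivAt (I.η a) (I.η1 a t) t) → ε ≤ 1 / 400 →
    (∀ a t, |wO I a t| ≤ |I.B a t| + K * (n + 1) * ε) ∧
    (∀ a, ContDiff ℝ 1 (wO I a)) ∧
    (∀ a T, 0 ≤ T → ∫ t in (-(T + 1))..(T + 1), (wO I a t ^ 2 + deriv (wO I a) t ^ 2) ≤
      2 * (∫ t in (-(T + 1))..(T + 1), (I.B a t ^ 2 + B' a t ^ 2)) + (K * (n + 1) * ε) ^ 2) ∧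
    (∀ a t, |I.ν a t| ≤ K * ∑ i, Real.exp (-(5 / 2 * |t - (g i).τ|))) ∧
    (∀ a, ∫ t, |I.ν a t| ≤ K * n) ∧
    (∫ x, I.τD x = -∑ i, NUC43.sg (g i).σ * qc (g i).c / 2) ∧
    (∀ a, Ext (NUMF.l / 10) (I.A a)) ∧
    ∀ (CB dl : ℝ) (P : Par6), (∀ a t, |I.B a t| ≤ CB) → (∀ a, 0 ≤ I.s a) →
      Com M I.s e I.η I.η1 → 0 ≤ b → Ok6 P → PG6 (1 / 64) P →
      ε / NUMF.l ≤ dl → dl ≤ 1 / 128 → IOk6 dl ε M b e I P := by
  obtain ⟨K, hK, H⟩ := exists_spG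
  refine ⟨K, hK, fun n g p q I B' h ε M b e hcur hd hε => ?_⟩
  obtain ⟨h1, h2, h3, h4, h5, h6, h7, -⟩ := H n g p q I B' h ε M b e hcur hd (hε.trans (by norm_num))
  refine ⟨h1, h2, h3, h4, h5, h6, h7, fun CB dl P hB s0 hcom b0 ok pg d1 d2 => ?_⟩
  exact h.spc.iok6 s0 b0 hcur hd hcom hε ok pg d1 d2
    (fun a => continuous_iff_continuousAt.2 fun t => (h.dB a t).continuousAt)
    (fun a => ⟨CB, hB a⟩) hB

end

end NUSea.PLX.H0
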