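import Pool.Agent.PHK.H0.DatC
import Pool.Agent.PLX.NUSea.H0.WoC

/-!
# Spectators in the data of a configuration of the six kinds: the fields of `IOk6`

`Spc` and its consequences are the landed ones (`PLX/NUSea/H0/WoC`), they do not see the objects;
`Spc.iok6` fills the structure `IOk6`.
-/

set_option autoImplicit false
set_option linter.unusedSectionVars false

open MeasureTheory Set Filter Topology

namespace NUSea.PLX.H0

open NUMF NUKer NUAct PHK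
open NUO (Xo)
open NUGC (Sr)

noncomputable section

lemma ext_mono6 {b c : ℝ} {F : ℂ → ℂ} (h : Ext b F) (hc : c ≤ b) : Ext c F := by
  obtain ⟨A, hA⟩ := h.bd
  exact ⟨fun z hz => h.diff z (hz.trans hc), A, fun z hz => hA z (hz.trans hc)⟩

variable [Sea]

variable {ι κ' : Type*} [Fintype ι] [Fintype κ'] {b κ cm : ℝ} {I : Inp} {c : ι → Bool → ℝ}
  {h : ι → ℝ} {f f1 : ι → Bool → ℂ → ℂ} {T : κ' → Sr} {R R' : Bool → ℝ → ℝ}

/-- **the hypotheses of the instance** -/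
theorem Spc.iok6 (S : Spc b κ cm I c h f f1 T R R') {dl ε M bb : ℝ} {e : ℝ → ℝ} {P : Par6}
    (s0 : ∀ a, 0 ≤ I.s a) (b0 : 0 ≤ bb)
    (hcur : ∀ a, Cur (I.s a) ε M bb e (I.η a)) (hd : ∀ a t, HasDerivAt (I.η a) (I.η1 a t) t)
    (hcom : Com M I.s e I.η I.η1) (hε : ε ≤ 1 / 400) (ok : Ok6 P)
    (pg : PG6 (1 / 64) P) (d1 : ε / NUMF.l ≤ dl) (d2 : dl ≤ 1 / 128)
    (Bc : ∀ a, Continuous (I.B a)) (Bb : ∀ a, ∃ C, ∀ t, |I.B a t| ≤ C) {CR : ℝ}
    (hR : ∀ a t, |R a t| ≤ CR) : IOk6 dl ε M bb e I P where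
  s0 := s0
  b0 := b0
  cur := hcur
  der := hd
  com := hcom
  ε1 := hε
  ok := ok
  pg := pg
  d1 := d1
  d2 := d2
  Ae a := ext_mono6 (S.Ae a) (by have := NUMF.l_pos; linarith)
  Bc := Bc
  Bb := Bb
  νc := S.νc
  νi := S.νi
  νb := S.νb
  τi := S.τi
  τ1 := S.τ1
  wc := S.wc hcur (hε.trans (by norm_num)) hd
  wb := S.wb hcur (hε.trans (by norm_num)) hd hR

end

end NUSea.PLX.H0
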